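import Pool.Agent.V5helper57.Zet.Sum

/-!
# Stability of Euler products on average
-/

set_option autoImplicit false

namespace Pool.Agent.V5helper57.Zet

open Finset NumberField IsDedekindDomain Q282.NF Pool.Agent.Y722.HS
open Pool.Agent.H921R2.TatePole (below deg nm nm_eq nm_summable)
open Pool.Agent.V5helper57.NGen (XX hT)
open Pool.Agent.V5helper57.NFld (EM_surj par par_int par_surj)
open Pool.Agent.X280.BP (EM_mul')

variable {K : Type} [Field K] [NumberField K] {m : ℕ} {a : HeightOneSpectrum (𝓞 K) → (Fin m → 𝓞 K) → ℝ} {A C : ℝ} {p0 : ℕ}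

theorem two_le_norm (v : HeightOneSpectrum (𝓞 K)) : 2 ≤ Ideal.absNorm v.asIdeal := Pool.Agent.H921R2.TatePole.two_le_nm v

/-- The local condition `bad` is periodic and rare. -/
structure Rare (K : Type) [Field K] [NumberField K] (m : ℕ) (bad : HeightOneSpectrum (𝓞 K) → (Fin m → 𝓞 K) → Prop)
    (C : ℝ) (p0 : ℕ) : Prop where
  C0 : 0 ≤ C
  loc : ∀ v, p0 ≤ (below v : ℕ) → ∃ (F : Type) (_ : Field F) (_ : Fintype F) (π : 𝓞 K →+* F) (G : (Fin m → F) → ℝ),
    Function.Surjective π ∧ CharP F (below v : ℕ) ∧ (∀ x, 0 ≤ G x) ∧ (∀ t, bad v t → 1 ≤ G (fun i => π (t i))) ∧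
    (∑ x, G x) / Fintype.card (Fin m → F) ≤ C / Ideal.absNorm v.asIdeal

/-- The powers of the norms for the primes of higher degree. -/
theorem pow_le_below {σ : ℝ} (hσ : 1 < σ) {v : HeightOneSpectrum (𝓞 K)} (h : deg v ≠ 1) :
    (Ideal.absNorm v.asIdeal : ℝ) ^ (1 / 2 - σ) ≤ ((below v : ℕ) : ℝ) ^ (-(2 * σ - 1)) := by
  have hb0 : (0 : ℝ) < (below v : ℕ) := by exact_mod_cast (below v).prop.pos
  have h5 : (((below v : ℕ) : ℝ) ^ (2 : ℝ)) ≤ (Ideal.absNorm v.asIdeal : ℝ) := by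
    rw [norm_eq]
    push_cast
    rw [Real.rpow_two]
    have h6 := (nm_eq v).2.1
    exact pow_le_pow_right₀ (by exact_mod_cast (below v).prop.one_le) (by omega)
  calc (Ideal.absNorm v.asIdeal : ℝ) ^ (1 / 2 - σ) ≤ (((below v : ℕ) : ℝ) ^ (2 : ℝ)) ^ (1 / 2 - σ) :=
        Real.rpow_le_rpow_of_nonpos (by positivity) h5 (by linarith)
    _ = ((below v : ℕ) : ℝ) ^ (-(2 * σ - 1)) := by
        rw [← Real.rpow_mul hb0.le]
        congr 1
        ring

theorem norm_cpow_le {σ : ℝ} (v : HeightOneSpectrum (𝓞 K)) {s : ℂ} (hs : σ ≤ s.re) :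
    ‖((Ideal.absNorm v.asIdeal : ℕ) : ℂ) ^ (-s)‖ ≤ (Ideal.absNorm v.asIdeal : ℝ) ^ (-σ) := by
  have hN0 : 0 < Ideal.absNorm v.asIdeal := by have := two_le_norm v; omega
  rw [Complex.norm_natCast_cpow_of_pos hN0, Complex.neg_re]
  exact Real.rpow_le_rpow_of_exponent_le (by exact_mod_cast hN0) (by linarith)

theorem sqrt_mul_rpow (v : HeightOneSpectrum (𝓞 K)) (σ : ℝ) :
    √(Ideal.absNorm v.asIdeal) * (Ideal.absNorm v.asIdeal : ℝ) ^ (-σ) = (Ideal.absNorm v.asIdeal : ℝ) ^ (1 / 2 - σ) := by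
  have hN0 : 0 < Ideal.absNorm v.asIdeal := by have := two_le_norm v; omega
  have hN0' : (0 : ℝ) < Ideal.absNorm v.asIdeal := by exact_mod_cast hN0
  rw [Real.sqrt_eq_rpow, ← Real.rpow_add hN0']
  congr 1

/-- **The sums of `a_v N^{-s}` are small** for almost all parameters. -/
theorem core1 (L : Loc K m a A C p0) {d : ℕ} (b : Fin d → 𝓞 K) (hb : ∀ x : 𝓞 K, ∃ a : Fin d → ℤ, x = ∑ j, (a j : 𝓞 K) * b j)
    {σ : ℝ} (hσ : 1 < σ) {R δ : ℝ} (hR : 0 ≤ R) (hδ : 0 < δ) :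
    ∃ y0 : ℕ, 1 ≤ y0 ∧ ∀ H : ℕ, ∃ M : (Fin m × Fin d → ℤ) → ℝ, (∀ c, 0 ≤ M c) ∧ EB H M ≤ δ ∧
      ∀ c, M c < 1 → ∀ s : ℂ, σ ≤ s.re → ‖s‖ ≤ R → ∀ X Y : ℕ, y0 ≤ X → X ≤ Y → Y ^ 7 ≤ H →
        ‖∑ v ∈ Wd K X Y, (a v (combine b (fun i j => c (i, j))) : ℂ) * ((Ideal.absNorm v.asIdeal : ℕ) : ℂ) ^ (-s)‖ ≤ δ := by
  classical
  have hA0 := L.A0
  obtain ⟨τ, hτ⟩ : ∃ τ : ℝ, τ = (1 + σ) / 2 := ⟨_, rfl⟩
  have hτ1 : 1 < τ := by rw [hτ]; linarith
  have hη : 0 < (σ - 1) / 2 := by linarith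
  obtain ⟨B, hB⟩ : ∃ B : ℝ, B = 1 + (R + τ) / ((σ - 1) / 2) := ⟨_, rfl⟩
  have hB1 : 1 ≤ B := by
    rw [hB]
    have : 0 ≤ (R + τ) / ((σ - 1) / 2) := by positivity
    linarith
  obtain ⟨δ1, hδ1⟩ : ∃ δ1 : ℝ, δ1 = δ / (4 * B) := ⟨_, rfl⟩
  have hδ1p : 0 < δ1 := by rw [hδ1]; positivity
  have hδ1le : δ1 ≤ δ := by
    rw [hδ1, div_le_iff₀ (by positivity)]
    nlinarith
  obtain ⟨u0, hu01, hu0⟩ := L.tail hτ1 b hb hδ1p
  obtain ⟨N1, hN1⟩ := tail_V (K := K) ((below_summable (K := K) (x := 2 * σ - 1) (by linarith)).mul_left A) (δ := δ / 2) (by positivity)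
  refine ⟨u0 + N1 + 2 ^ Fintype.card (Fin m × Fin d) * 64, by omega, fun H => ?_⟩
  obtain ⟨x, hx⟩ : ∃ x : ℕ, x = rt 7 H + 1 := ⟨_, rfl⟩
  by_cases hxu : u0 + 2 ^ Fintype.card (Fin m × Fin d) * 64 ≤ rt 7 H
  · have hH7 : rt 7 H ^ 7 ≤ H := (le_rt (by norm_num)).1 le_rfl
    have hrt1 : 1 ≤ rt 7 H := by omega
    have hxH : 2 ^ Fintype.card (Fin m × Fin d) * x ^ 6 ≤ 2 * H + 1 := by
      have h1 : x ^ 6 ≤ 64 * rt 7 H ^ 6 := by
        have : x ≤ 2 * rt 7 H := by omega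
        calc x ^ 6 ≤ (2 * rt 7 H) ^ 6 := Nat.pow_le_pow_left this 6
          _ = 64 * rt 7 H ^ 6 := by ring
      calc 2 ^ Fintype.card (Fin m × Fin d) * x ^ 6 ≤ 2 ^ Fintype.card (Fin m × Fin d) * (64 * rt 7 H ^ 6) := Nat.mul_le_mul_left _ h1
        _ = (2 ^ Fintype.card (Fin m × Fin d) * 64) * rt 7 H ^ 6 := by ring
        _ ≤ rt 7 H * rt 7 H ^ 6 := Nat.mul_le_mul_right _ (by omega)
        _ = rt 7 H ^ 7 := by ring
        _ ≤ 2 * H + 1 := by omega
    obtain ⟨M, hM0, hM1, hM2⟩ := hu0 x H (by omega) hxH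
    refine ⟨M, hM0, hM1.trans hδ1le, fun c hc s hs hsR X Y hX hXY hY => ?_⟩
    obtain ⟨t, ht⟩ : ∃ t, t = combine b (fun i j => c (i, j)) := ⟨_, rfl⟩
    rw [← ht]
    have hYx : Y + 1 ≤ x := by
      have := (le_rt (f := 7) (X := H) (y := Y) (by norm_num)).2 hY
      omega
    have hsplit : ∑ v ∈ Wd K X Y, (a v t : ℂ) * ((Ideal.absNorm v.asIdeal : ℕ) : ℂ) ^ (-s) =
        ∑ v ∈ Wd K X Y, (if deg v = 1 then (a v t : ℂ) * ((Ideal.absNorm v.asIdeal : ℕ) : ℂ) ^ (-s) else 0) +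
        ∑ v ∈ Wd K X Y, (if deg v = 1 then 0 else (a v t : ℂ) * ((Ideal.absNorm v.asIdeal : ℕ) : ℂ) ^ (-s)) := by
      rw [← sum_add_distrib]
      refine sum_congr rfl fun v _ => ?_
      split_ifs
      · rw [add_zero]
      · rw [zero_add]
    have h2 : ‖∑ v ∈ Wd K X Y, (if deg v = 1 then 0 else (a v t : ℂ) * ((Ideal.absNorm v.asIdeal : ℕ) : ℂ) ^ (-s))‖ ≤ δ / 2 := by
      refine (norm_sum_le _ _).trans (le_trans (sum_le_sum fun v hv => ?_) (hN1 X Y (by omega)))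
      split_ifs with h
      · rw [norm_zero]
        positivity
      · have h4 : |a v t| ≤ A * √(Ideal.absNorm v.asIdeal) := L.bd v t
        rw [norm_mul, Complex.norm_real]
        calc |a v t| * ‖((Ideal.absNorm v.asIdeal : ℕ) : ℂ) ^ (-s)‖
            ≤ (A * √(Ideal.absNorm v.asIdeal)) * (Ideal.absNorm v.asIdeal : ℝ) ^ (-σ) :=
              mul_le_mul h4 (norm_cpow_le v hs) (norm_nonneg _) (by positivity)
          _ = A * (Ideal.absNorm v.asIdeal : ℝ) ^ (1 / 2 - σ) := by rw [mul_assoc, sqrt_mul_rpow]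
          _ ≤ A * ((below v : ℕ) : ℝ) ^ (-(2 * σ - 1)) := mul_le_mul_of_nonneg_left (pow_le_below hσ h) hA0
    have h7 : ‖∑ v ∈ Wd K X Y, (if deg v = 1 then (a v t : ℂ) * ((Ideal.absNorm v.asIdeal : ℕ) : ℂ) ^ (-s) else 0)‖ ≤ δ / 2 := by
      have h8 := sum_one L τ b X Y c (s - τ)
      rw [sub_add_cancel, ← ht] at h8
      rw [h8]
      have hre : 0 < (s - (τ : ℂ)).re := by
        rw [Complex.sub_re, Complex.ofReal_re]
        linarith
      have h9 := abel (f := fun i => if i.Prime then hT (wt a τ) b i (red i c) else 0) (u := X + 1) (v := Y + 1) (by omega) (by omega)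
        (δ := 2 * δ1) (by positivity) (fun z hz1 hz2 => by
          have e1 : ∑ i ∈ Ico (X + 1) z, (if i.Prime then hT (wt a τ) b i (red i c) else 0) = TT a τ b u0 z c - TT a τ b u0 (X + 1) c := by
            have e2 : ∀ u v, TT a τ b u v c = ∑ i ∈ Ico u v, (if i.Prime then hT (wt a τ) b i (red i c) else 0) := by
              intro u v
              unfold TT
              rw [sum_filter]
            rw [e2, e2, ← Finset.sum_Ico_consecutive _ (show u0 ≤ X + 1 by omega) hz1]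
            ring
          rw [e1]
          refine (abs_sub _ _).trans ?_
          have h10 := hM2 c hc z (by omega) (by omega)
          have h11 := hM2 c hc (X + 1) (by omega) (by omega)
          linarith) hre
      refine h9.trans ?_
      have h12 : ‖s - (τ : ℂ)‖ / (s - (τ : ℂ)).re ≤ (R + τ) / ((σ - 1) / 2) := by
        have h13 : ‖s - (τ : ℂ)‖ ≤ R + τ := by
          refine (norm_sub_le _ _).trans ?_
          rw [Complex.norm_real, Real.norm_of_nonneg (by linarith)]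
          linarith
        have h14 : (σ - 1) / 2 ≤ (s - (τ : ℂ)).re := by
          rw [Complex.sub_re, Complex.ofReal_re, hτ]
          linarith
        exact div_le_div₀ (by linarith) h13 hη h14
      calc 2 * δ1 * (1 + ‖s - (τ : ℂ)‖ / (s - (τ : ℂ)).re) ≤ 2 * δ1 * B := by
            rw [hB]
            gcongr
        _ = δ / 2 := by
            rw [hδ1]
            field_simp
            norm_num
    rw [hsplit]
    refine (norm_add_le _ _).trans ?_
    linarith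
  · refine ⟨fun _ => 0, fun _ => le_rfl, ?_, fun c _ s _ _ X Y hX hXY hY => ?_⟩
    · unfold EB
      simp
      exact hδ.le
    · exfalso
      have := (le_rt (f := 7) (X := H) (y := Y) (by norm_num)).2 hY
      omega

open Classical in
/-- **The bad primes contribute little** for almost all parameters. -/
theorem core2 {bad : HeightOneSpectrum (𝓞 K) → (Fin m → 𝓞 K) → Prop} {C : ℝ} {p0 : ℕ} (L : Rare K m bad C p0)
    {d : ℕ} (b : Fin d → 𝓞 K) (hb : ∀ x : 𝓞 K, ∃ a : Fin d → ℤ, x = ∑ j, (a j : 𝓞 K) * b j)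
    {σ : ℝ} (hσ : 1 < σ) {δ : ℝ} (hδ : 0 < δ) :
    ∃ y0 : ℕ, ∀ H : ℕ, ∃ M : (Fin m × Fin d → ℤ) → ℝ, (∀ c, 0 ≤ M c) ∧ EB H M ≤ δ ∧
      ∀ c, M c < 1 → ∀ X Y : ℕ, y0 ≤ X → X ≤ Y → Y ^ 7 ≤ H →
        ∑ v ∈ Wd K X Y, (if bad v (combine b (fun i j => c (i, j))) then (Ideal.absNorm v.asIdeal : ℝ) ^ (1 / 2 - σ) else 0) ≤ δ := by
  have hC0 := L.C0
  obtain ⟨N1, hN1⟩ := tail_V (K := K) (below_summable (K := K) (x := 2 * σ - 1) (by linarith)) (δ := δ / 2) (by positivity)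
  obtain ⟨N2, hN2⟩ := tail_V (K := K) ((nm_summable (K := K) (x := 1 / 2 + σ) (by linarith)).mul_left
    (2 ^ Fintype.card (Fin m × Fin d) * C)) (δ := δ * (δ / 2)) (by positivity)
  obtain ⟨u0, hu0⟩ : ∃ u0 : ℕ, u0 = N1 + N2 + p0 := ⟨_, rfl⟩
  refine ⟨u0, fun H => ?_⟩
  have hH7 : rt 7 H ^ 7 ≤ H := (le_rt (by norm_num)).1 le_rfl
  have hHx : rt 7 H ≤ H := (Nat.le_self_pow (by norm_num) _).trans hH7
  refine ⟨fun c => (∑ v ∈ Wd K u0 (rt 7 H), (if deg v = 1 ∧ bad v (combine b (fun i j => c (i, j))) then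
    (Ideal.absNorm v.asIdeal : ℝ) ^ (1 / 2 - σ) else 0)) / (δ / 2), fun c => ?_, ?_, fun c hc X Y hX hXY hY => ?_⟩
  · refine div_nonneg (sum_nonneg fun v _ => ?_) (by positivity)
    split_ifs <;> positivity
  · have e : EB H (fun c => (∑ v ∈ Wd K u0 (rt 7 H), (if deg v = 1 ∧ bad v (combine b (fun i j => c (i, j))) then
        (Ideal.absNorm v.asIdeal : ℝ) ^ (1 / 2 - σ) else 0)) / (δ / 2)) =
        (∑ v ∈ Wd K u0 (rt 7 H), EB H (fun c => (if deg v = 1 ∧ bad v (combine b (fun i j => c (i, j))) then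
        (Ideal.absNorm v.asIdeal : ℝ) ^ (1 / 2 - σ) else 0))) / (δ / 2) := by
      rw [← Pool.Agent.X280.BP.EB_sum]
      unfold EB
      rw [← sum_div]
      ring
    rw [e, div_le_iff₀ (by positivity)]
    refine le_trans (sum_le_sum fun v hv => ?_) (hN2 u0 (rt 7 H) (by omega))
    have hv1 := mem_Wd.1 hv
    have hN0 : (0 : ℝ) < Ideal.absNorm v.asIdeal := by
      have := two_le_norm v
      exact_mod_cast (by omega : 0 < Ideal.absNorm v.asIdeal)
    by_cases h : deg v = 1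
    · have hN : Ideal.absNorm v.asIdeal = (below v : ℕ) := by
        rw [norm_eq, h, pow_one]
      obtain ⟨F, _, _, π, G, hπ, hch, hG0, hG1, hG2⟩ := L.loc v (by omega)
      have : NeZero (below v : ℕ) := ⟨(below v).prop.ne_zero⟩
      have h1 := EB_le H (below v : ℕ) (by omega) (fun u : Fin m × Fin d → ZMod (below v : ℕ) =>
        (Ideal.absNorm v.asIdeal : ℝ) ^ (1 / 2 - σ) * G (par (below v : ℕ) π b u)) (fun u => mul_nonneg (by positivity) (hG0 _))
      have h2 : EB H (fun c => (if deg v = 1 ∧ bad v (combine b (fun i j => c (i, j))) then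
          (Ideal.absNorm v.asIdeal : ℝ) ^ (1 / 2 - σ) else 0)) ≤
          EB H (fun c : Fin m × Fin d → ℤ => (Ideal.absNorm v.asIdeal : ℝ) ^ (1 / 2 - σ) *
            G (par (below v : ℕ) π b (red (below v : ℕ) c))) := by
        refine Pool.Agent.X280.BP.EB_mono H _ _ fun c => ?_
        split_ifs with h3
        · have h4 := hG1 _ h3.2
          rw [← par_int (m := m) (below v : ℕ) π b c] at h4
          calc (Ideal.absNorm v.asIdeal : ℝ) ^ (1 / 2 - σ) = (Ideal.absNorm v.asIdeal : ℝ) ^ (1 / 2 - σ) * 1 := (mul_one _).symm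
            _ ≤ _ := mul_le_mul_of_nonneg_left h4 (by positivity)
        · exact mul_nonneg (by positivity) (hG0 _)
      refine (h2.trans h1).trans ?_
      rw [EM_mul' (below v : ℕ), EM_surj (below v : ℕ) _ (par_surj (m := m) (below v : ℕ) π hπ b hb) G]
      have h5 : (Ideal.absNorm v.asIdeal : ℝ) ^ (1 / 2 - σ) * (C / Ideal.absNorm v.asIdeal) =
          C * (Ideal.absNorm v.asIdeal : ℝ) ^ (-(1 / 2 + σ)) := by
        rw [mul_div_assoc', mul_comm, mul_div_assoc, ← Real.rpow_sub_one hN0.ne']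
        congr 2
        ring
      calc 2 ^ Fintype.card (Fin m × Fin d) * ((Ideal.absNorm v.asIdeal : ℝ) ^ (1 / 2 - σ) * ((∑ x, G x) / Fintype.card (Fin m → F)))
          ≤ 2 ^ Fintype.card (Fin m × Fin d) * ((Ideal.absNorm v.asIdeal : ℝ) ^ (1 / 2 - σ) * (C / Ideal.absNorm v.asIdeal)) := by
            gcongr
        _ = 2 ^ Fintype.card (Fin m × Fin d) * C * (Ideal.absNorm v.asIdeal : ℝ) ^ (-(1 / 2 + σ)) := by
            rw [h5]
            ring
    · have h1 : (fun c : Fin m × Fin d → ℤ => (if deg v = 1 ∧ bad v (combine b (fun i j => c (i, j))) then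
          (Ideal.absNorm v.asIdeal : ℝ) ^ (1 / 2 - σ) else 0)) = fun _ => 0 := by
        funext c
        rw [if_neg]
        rintro ⟨h2, _⟩
        exact h h2
      rw [h1]
      have h2 : EB H (fun _ : Fin m × Fin d → ℤ => (0 : ℝ)) = 0 := by simp [EB]
      rw [h2]
      positivity
  · rw [div_lt_one (by positivity)] at hc
    obtain ⟨t, ht⟩ : ∃ t, t = combine b (fun i j => c (i, j)) := ⟨_, rfl⟩
    rw [← ht] at hc ⊢
    have hYx : Y ≤ rt 7 H := (le_rt (f := 7) (X := H) (y := Y) (by norm_num)).2 hY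
    have hsplit : ∀ v ∈ Wd K X Y, (if bad v t then (Ideal.absNorm v.asIdeal : ℝ) ^ (1 / 2 - σ) else 0) ≤
        (if deg v = 1 ∧ bad v t then (Ideal.absNorm v.asIdeal : ℝ) ^ (1 / 2 - σ) else 0) + ((below v : ℕ) : ℝ) ^ (-(2 * σ - 1)) := by
      intro v _
      have h0 : 0 ≤ ((below v : ℕ) : ℝ) ^ (-(2 * σ - 1)) := by positivity
      by_cases h : deg v = 1
      · by_cases h2 : bad v t
        · rw [if_pos h2, if_pos ⟨h, h2⟩]
          linarith
        · rw [if_neg h2, if_neg (fun h3 => h2 h3.2)]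
          linarith
      · have h4 : ¬ (deg v = 1 ∧ bad v t) := fun h3 => h h3.1
        rw [if_neg h4, zero_add]
        split_ifs
        · exact pow_le_below hσ h
        · exact h0
    refine (sum_le_sum hsplit).trans ?_
    rw [sum_add_distrib]
    have h1 : ∑ v ∈ Wd K X Y, (if deg v = 1 ∧ bad v t then (Ideal.absNorm v.asIdeal : ℝ) ^ (1 / 2 - σ) else 0) ≤
        ∑ v ∈ Wd K u0 (rt 7 H), (if deg v = 1 ∧ bad v t then (Ideal.absNorm v.asIdeal : ℝ) ^ (1 / 2 - σ) else 0) := by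
      refine sum_le_sum_of_subset_of_nonneg (fun v hv => ?_) (fun v _ _ => ?_)
      · have h2 := mem_Wd.1 hv
        exact mem_Wd.2 ⟨by omega, by omega⟩
      · split_ifs <;> positivity
    have h3 := hN1 X Y (by omega)
    linarith

end Pool.Agent.V5helper57.Zet
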