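import Pool.Agent.V5helper57.Zet.Fam

/-!
# Products over the places of norm at most `y`
-/

set_option autoImplicit false

namespace Pool.Agent.V5helper57.Zet

open Finset NumberField IsDedekindDomain Q282.NF Pool.Agent.Y722.HS

variable {K : Type} [Field K] [NumberField K]

/-- The product of the Euler factors over the places of norm at most `y`. -/
theorem prod_fin (f : HeightOneSpectrum (𝓞 K) → ℂ) {y : ℝ} (hy : 0 ≤ y) :
    ∏ᶠ v ∈ {v : HeightOneSpectrum (𝓞 K) | (Ideal.absNorm v.asIdeal : ℝ) ≤ y}, f v = ∏ v ∈ Wd K 0 ⌊y⌋₊, f v := by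
  classical
  have e : {v : HeightOneSpectrum (𝓞 K) | (Ideal.absNorm v.asIdeal : ℝ) ≤ y} = ↑(Wd K 0 ⌊y⌋₊) := by
    ext v
    rw [Finset.mem_coe, mem_Wd, Set.mem_ofPred_eq, Nat.le_floor_iff hy]
    have := two_le_norm v
    constructor
    · intro h
      exact ⟨by omega, h⟩
    · intro h
      exact h.2
  rw [e, finprod_mem_coe_finset]

theorem prod_split (f : HeightOneSpectrum (𝓞 K) → ℂ) {X Y : ℕ} (h : X ≤ Y) :
    ∏ v ∈ Wd K 0 Y, f v = (∏ v ∈ Wd K 0 X, f v) * ∏ v ∈ Wd K X Y, f v := by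
  classical
  rw [← prod_union]
  · refine prod_congr ?_ fun _ _ => rfl
    ext v
    rw [mem_union, mem_Wd, mem_Wd, mem_Wd]
    omega
  · rw [Finset.disjoint_left]
    intro v hv hv'
    have h1 := mem_Wd.1 hv
    have h2 := mem_Wd.1 hv'
    omega

/-- A window with a small exponent changes the product little. -/
theorem prod_near (f : HeightOneSpectrum (𝓞 K) → ℂ) {y' y δ : ℝ} (hy0 : 0 ≤ y') (hy : y' ≤ y) (hδ1 : δ ≤ 1) {E : ℂ}
    (hE : ∏ v ∈ Wd K ⌊y'⌋₊ ⌊y⌋₊, f v = Complex.exp E) (hE' : ‖E‖ ≤ δ) :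
    ‖∏ᶠ v ∈ {v : HeightOneSpectrum (𝓞 K) | (Ideal.absNorm v.asIdeal : ℝ) ≤ y}, f v -
      ∏ᶠ v ∈ {v : HeightOneSpectrum (𝓞 K) | (Ideal.absNorm v.asIdeal : ℝ) ≤ y'}, f v‖ ≤
    2 * δ * ‖∏ᶠ v ∈ {v : HeightOneSpectrum (𝓞 K) | (Ideal.absNorm v.asIdeal : ℝ) ≤ y'}, f v‖ := by
  rw [prod_fin f (hy0.trans hy), prod_fin f hy0, prod_split f (Nat.floor_le_floor hy), hE]
  have h1 : (∏ v ∈ Wd K 0 ⌊y'⌋₊, f v) * Complex.exp E - ∏ v ∈ Wd K 0 ⌊y'⌋₊, f v =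
      (Complex.exp E - 1) * ∏ v ∈ Wd K 0 ⌊y'⌋₊, f v := by ring
  rw [h1, norm_mul]
  refine mul_le_mul_of_nonneg_right ?_ (norm_nonneg _)
  refine (Complex.norm_exp_sub_one_le (hE'.trans hδ1)).trans ?_
  linarith

open Classical in
/-- The proportion of the exceptional parameters. -/
theorem prop_le {ι : Type} [Fintype ι] [DecidableEq ι] {H : ℕ} {S : Set (ι → ℤ)} {M : (ι → ℤ) → ℝ} {δ : ℝ} (hM : ∀ c, 0 ≤ M c)
    (hE : EB H M ≤ δ) (hS : ∀ c ∈ S, 1 ≤ M c) :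
    (((Fintype.piFinset fun _ : ι => Finset.Icc (-(H : ℤ)) H).filter (· ∈ S)).card : ℝ) / (2 * H + 1 : ℝ) ^ Fintype.card ι ≤ δ := by
  refine le_trans ?_ hE
  unfold EB
  refine div_le_div_of_nonneg_right ?_ (by positivity)
  have h1 : ∑ c ∈ (Fintype.piFinset fun _ : ι => Finset.Icc (-(H : ℤ)) H).filter (· ∈ S), (1 : ℝ) ≤
      ∑ c ∈ (Fintype.piFinset fun _ : ι => Finset.Icc (-(H : ℤ)) H).filter (· ∈ S), M c :=
    sum_le_sum fun c hc => hS c (mem_filter.1 hc).2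
  rw [sum_const, nsmul_eq_mul, mul_one] at h1
  refine h1.trans ?_
  refine (sum_le_sum_of_subset_of_nonneg (filter_subset _ _) fun c _ _ => hM c).trans (le_of_eq ?_)
  rfl

end Pool.Agent.V5helper57.Zet
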