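import Pool.Agent.W350.Edge5

/-!
# Summation by parts
-/

set_option autoImplicit false

namespace Pool.Agent.V5helper57.Zet

open Finset

theorem parts (f : ℕ → ℂ) (g : ℕ → ℂ) {u v : ℕ} (huv : u ≤ v) :
    ∑ i ∈ Ico u v, f i * g i = (∑ i ∈ Ico u v, f i) * g v + ∑ i ∈ Ico u v, (∑ j ∈ Ico u (i + 1), f j) * (g i - g (i + 1)) := by
  induction v, huv using Nat.le_induction with
  | base => simp
  | succ n hn ih =>
    rw [Finset.sum_Ico_succ_top hn, Finset.sum_Ico_succ_top hn, Finset.sum_Ico_succ_top hn, ih, Finset.sum_Ico_succ_top hn]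
    ring

/-- **Abel's inequality.** -/
theorem abel {f : ℕ → ℝ} {u v : ℕ} (hu : 1 ≤ u) (huv : u ≤ v) {δ : ℝ} (hδ : 0 ≤ δ)
    (h : ∀ t, u ≤ t → t ≤ v → |∑ i ∈ Ico u t, f i| ≤ δ) {w : ℂ} (hw : 0 < w.re) :
    ‖∑ i ∈ Ico u v, (f i : ℂ) * (i : ℂ) ^ (-w)‖ ≤ δ * (1 + ‖w‖ / w.re) := by
  classical
  have hS : ∀ t, u ≤ t → t ≤ v → ‖∑ i ∈ Ico u t, (f i : ℂ)‖ ≤ δ := by
    intro t h1 h2
    rw [← Complex.ofReal_sum, Complex.norm_real]
    exact h t h1 h2
  have hg : ∀ i : ℕ, 1 ≤ i → (i : ℂ) ^ (-w) = Complex.exp (-w * (Real.log i : ℝ)) := by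
    intro i hi
    rw [Complex.cpow_def_of_ne_zero (by exact_mod_cast (by omega : i ≠ 0)), ← Complex.natCast_log, mul_comm]
  have hg1 : ∀ i : ℕ, 1 ≤ i → ‖(i : ℂ) ^ (-w)‖ = Real.exp (-w.re * Real.log i) := by
    intro i hi
    rw [hg i hi, Complex.norm_exp, Complex.re_mul_ofReal, Complex.neg_re]
  have hd : ∀ i : ℕ, 1 ≤ i → ‖(i : ℂ) ^ (-w) - ((i + 1 : ℕ) : ℂ) ^ (-w)‖ ≤
      ‖w‖ / w.re * (Real.exp (-w.re * Real.log i) - Real.exp (-w.re * Real.log (i + 1 : ℕ))) := by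
    intro i hi
    have h1 := Pool.Agent.W350.Edge.exp_sub_le w hw (u := Real.log i) (v := Real.log (i + 1 : ℕ))
      (Real.log_le_log (by exact_mod_cast hi) (by exact_mod_cast Nat.le_succ i))
    rw [hg i hi, hg (i + 1) (by omega), norm_sub_rev]
    exact h1
  have hle : ∀ i : ℕ, 1 ≤ i → Real.exp (-w.re * Real.log i) ≤ 1 := by
    intro i hi
    rw [Real.exp_le_one_iff]
    have : 0 ≤ Real.log i := Real.log_nonneg (by exact_mod_cast hi)
    nlinarith
  have htel : ∑ i ∈ Ico u v, (Real.exp (-w.re * Real.log i) - Real.exp (-w.re * Real.log (i + 1 : ℕ))) ≤ 1 := by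
    have h1 : ∑ i ∈ Ico u v, (Real.exp (-w.re * Real.log i) - Real.exp (-w.re * Real.log (i + 1 : ℕ))) =
        Real.exp (-w.re * Real.log u) - Real.exp (-w.re * Real.log v) := by
      have h2 := Finset.sum_Ico_sub (fun i : ℕ => Real.exp (-w.re * Real.log i)) huv
      have h3 : ∑ i ∈ Ico u v, (Real.exp (-w.re * Real.log i) - Real.exp (-w.re * Real.log (i + 1 : ℕ))) =
          - ∑ i ∈ Ico u v, (Real.exp (-w.re * Real.log (i + 1 : ℕ)) - Real.exp (-w.re * Real.log i)) := by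
        rw [← Finset.sum_neg_distrib]
        refine sum_congr rfl fun i _ => ?_
        ring
      rw [h3, h2]
      ring
    rw [h1]
    have := hle u hu
    have := Real.exp_pos (-w.re * Real.log v)
    linarith
  have hc : 0 ≤ ‖w‖ / w.re := by positivity
  rw [parts _ _ huv]
  refine (norm_add_le _ _).trans ?_
  rw [mul_add, mul_one]
  refine add_le_add ?_ ?_
  · rw [norm_mul]
    calc _ ≤ δ * 1 := by
          refine mul_le_mul (hS v huv le_rfl) ?_ (norm_nonneg _) hδ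
          rw [hg1 v (by omega)]
          exact hle v (by omega)
      _ = δ := mul_one δ
  · refine (norm_sum_le _ _).trans ?_
    calc ∑ i ∈ Ico u v, ‖(∑ j ∈ Ico u (i + 1), (f j : ℂ)) * ((i : ℂ) ^ (-w) - ((i + 1 : ℕ) : ℂ) ^ (-w))‖
        ≤ ∑ i ∈ Ico u v, δ * (‖w‖ / w.re * (Real.exp (-w.re * Real.log i) - Real.exp (-w.re * Real.log (i + 1 : ℕ)))) := by
          refine sum_le_sum fun i hi => ?_
          have h1 := mem_Ico.1 hi
          rw [norm_mul]
          exact mul_le_mul (hS (i + 1) (by omega) (by omega)) (hd i (by omega)) (norm_nonneg _) hδ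
      _ = δ * (‖w‖ / w.re * ∑ i ∈ Ico u v, (Real.exp (-w.re * Real.log i) - Real.exp (-w.re * Real.log (i + 1 : ℕ)))) := by
          rw [mul_sum, mul_sum]
      _ ≤ δ * (‖w‖ / w.re * 1) := by gcongr
      _ = δ * (‖w‖ / w.re) := by rw [mul_one]

end Pool.Agent.V5helper57.Zet
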