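import Pool.Agent.V5helper57.Zet.Prod
import Pool.Agent.W350.EdgeEC

/-!
# The Euler factors of elliptic curves
-/

set_option autoImplicit false

namespace Pool.Agent.V5helper57.Zet

open Finset NumberField IsDedekindDomain Q282.NF Pool.Agent.Y722.HS
open Pool.Agent.H921R2.TatePole (below deg nm nm_eq nm_summable)
open Pool.Agent.H341R2.EC (IsMinAt IsModel aff short short_eq aff_eq_short mk_ne minimal_good aff_model)

section

variable {F : Type} [Field F] [Fintype F] [DecidableEq F]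

/-- The value over a finite field. -/
noncomputable def locA (c : F × F × F) : ℝ := if Q282.BP.dis c = 0 then 0 else - Q282.BP.SS c

theorem locA_le (hF : ringChar F ≠ 2) (c : F × F × F) : |locA c| ≤ 2 * √(Fintype.card F) := by
  unfold locA
  split_ifs
  · rw [abs_zero]
    positivity
  · rw [abs_neg]
    exact hasse hF c

end

variable {K : Type} [Field K] [NumberField K]

open Classical in
/-- The coefficient `a_v`, zero at the primes dividing twice the discriminant. -/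
noncomputable def av (v : HeightOneSpectrum (𝓞 K)) (C : 𝓞 K × 𝓞 K × 𝓞 K) : ℝ :=
  if Good C v then (Ideal.absNorm v.asIdeal : ℝ) - points C v else 0

theorem av_two (v : HeightOneSpectrum (𝓞 K)) (h2 : (2 : 𝓞 K) ∈ v.asIdeal) (C : 𝓞 K × 𝓞 K × 𝓞 K) : av v C = 0 := by
  unfold av
  rw [if_neg]
  intro h
  exact h (Ideal.mul_mem_right _ _ h2)

theorem av_ker (v : HeightOneSpectrum (𝓞 K)) :
    ∃ (F : Type) (_ : Field F) (_ : Fintype F) (_ : DecidableEq F) (π : 𝓞 K →+* F), Function.Surjective π ∧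
      (∀ x, π x = 0 ↔ x ∈ v.asIdeal) ∧ CharP F (below v : ℕ) ∧ Fintype.card F = Ideal.absNorm v.asIdeal ∧
      ((2 : 𝓞 K) ∉ v.asIdeal → ringChar F ≠ 2 ∧ ∀ C, av v C = locA (mapC π C)) := by
  classical
  have hmax : v.asIdeal.IsMaximal := v.isPrime.isMaximal v.ne_bot
  let _ : Field (𝓞 K ⧸ v.asIdeal) := Ideal.Quotient.field v.asIdeal
  have hfin : Finite (𝓞 K ⧸ v.asIdeal) := Nat.finite_of_card_ne_zero (nm_pos v).ne'
  let _ : Fintype (𝓞 K ⧸ v.asIdeal) := Fintype.ofFinite _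
  have hcard : Fintype.card (𝓞 K ⧸ v.asIdeal) = Ideal.absNorm v.asIdeal := by
    rw [← Nat.card_eq_fintype_card]
    rfl
  have hchar : CharP (𝓞 K ⧸ v.asIdeal) (below v : ℕ) := by
    have hp := (nm_eq v).2.2
    have h0 : (((below v : ℕ) : ℕ) : 𝓞 K ⧸ v.asIdeal) = 0 := by
      rw [← map_natCast (Ideal.Quotient.mk v.asIdeal)]
      exact Ideal.Quotient.eq_zero_iff_mem.2 hp
    exact ringChar.of_eq (CharP.ringChar_of_prime_eq_zero (below v).prop h0)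
  refine ⟨𝓞 K ⧸ v.asIdeal, inferInstance, inferInstance, Classical.decEq _, Ideal.Quotient.mk v.asIdeal,
    Ideal.Quotient.mk_surjective, fun x => Ideal.Quotient.eq_zero_iff_mem, hchar, hcard, fun h2 => ?_⟩
  have hchar2 : ringChar (𝓞 K ⧸ v.asIdeal) ≠ 2 := by
    intro h
    apply h2
    rw [← Ideal.Quotient.eq_zero_iff_mem]
    have h3 : ((2 : ℕ) : 𝓞 K ⧸ v.asIdeal) = 0 := by
      rw [← h]
      exact ringChar.Nat.cast_ringChar
    rw [map_ofNat]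
    exact_mod_cast h3
  refine ⟨hchar2, fun C => ?_⟩
  have hgood : Good C v ↔ ¬ Q282.BP.dis (mapC (Ideal.Quotient.mk v.asIdeal) C) = 0 := by
    unfold Good
    rw [mapC_dis, Ideal.Quotient.eq_zero_iff_mem, disc_eq]
    constructor
    · intro h h3
      exact h (Ideal.mul_mem_left _ _ h3)
    · intro h h3
      rcases v.isPrime.mem_or_mem h3 with h4 | h4
      · exact h2 h4
      · exact h h4
  have hpts : (points C v : ℝ) = Fintype.card (𝓞 K ⧸ v.asIdeal) + Q282.BP.SS (mapC (Ideal.Quotient.mk v.asIdeal) C) := by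
    unfold points
    exact card_affine hchar2 (fun x => x ^ 3 + (Ideal.Quotient.mk v.asIdeal) C.1 * x ^ 2 +
      (Ideal.Quotient.mk v.asIdeal) C.2.1 * x + (Ideal.Quotient.mk v.asIdeal) C.2.2)
  unfold av locA
  by_cases hg : Good C v
  · rw [if_pos hg, if_neg (hgood.1 hg), hpts, ← hcard]
    ring
  · rw [if_neg hg, if_pos (not_not.1 fun h => hg (hgood.2 h))]

theorem av_le (v : HeightOneSpectrum (𝓞 K)) (C : 𝓞 K × 𝓞 K × 𝓞 K) : |av v C| ≤ 2 * √(Ideal.absNorm v.asIdeal) := by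
  by_cases h2 : (2 : 𝓞 K) ∈ v.asIdeal
  · rw [av_two v h2, abs_zero]
    positivity
  · obtain ⟨F, _, _, _, π, hπ, _, hch, hcard, h3⟩ := av_ker v
    obtain ⟨hF, hval⟩ := h3 h2
    rw [hval, ← hcard]
    exact locA_le hF _

/-- The local data of a family of curves. -/
theorem loc_of {m : ℕ} {crv : (Fin m → 𝓞 K) → 𝓞 K × 𝓞 K × 𝓞 K} {C : ℝ} {p0 : ℕ} (hC : 0 ≤ C)
    (h : ∀ (v : HeightOneSpectrum (𝓞 K)) (F : Type) [Field F] [Fintype F] [DecidableEq F] (π : 𝓞 K →+* F), Function.Surjective π →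
      (∀ x, π x = 0 ↔ x ∈ v.asIdeal) → ringChar F ≠ 2 → ∃ g : (Fin m → F) → F × F × F,
        (∀ t, mapC π (crv t) = g (fun i => π (t i))) ∧
        (p0 ≤ (below v : ℕ) → |∑ x, locA (g x)| ≤ C * Fintype.card (Fin m → F))) :
    Loc K m (fun v t => av v (crv t)) 2 C p0 := by
  classical
  refine ⟨by norm_num, hC, fun v t => av_le v _, fun v => ?_⟩
  obtain ⟨F, _, _, _, π, hπ, hker, hch, hcard, h3⟩ := av_ker v
  by_cases h2 : (2 : 𝓞 K) ∈ v.asIdeal
  · refine ⟨F, inferInstance, inferInstance, π, fun _ => 0, hπ, hch, fun t => av_two v h2 _, fun _ => ?_⟩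
    rw [sum_const_zero, zero_div, abs_zero]
    exact hC
  · obtain ⟨hF, hval⟩ := h3 h2
    obtain ⟨g, hg1, hg2⟩ := h v F π hπ hker hF
    refine ⟨F, inferInstance, inferInstance, π, fun x => locA (g x), hπ, hch, fun t => ?_, fun hp => ?_⟩
    · rw [hval, hg1]
    · have h0 : (0 : ℝ) < Fintype.card (Fin m → F) := by exact_mod_cast Fintype.card_pos
      rw [abs_div, abs_of_pos h0, div_le_iff₀ h0]
      exact hg2 hp

/-- One Euler factor. -/
theorem fac_exp {σ : ℝ} (hσ : 1 < σ) {v : HeightOneSpectrum (𝓞 K)} (hq : 36 ≤ Ideal.absNorm v.asIdeal) {a : ℝ}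
    (ha : |a| ≤ 2 * √(Ideal.absNorm v.asIdeal)) {u : ℂ} (hu : u = 0 ∨ u = ((Ideal.absNorm v.asIdeal : ℕ) : ℂ)) {s : ℂ}
    (hs : σ ≤ s.re) :
    ∃ e : ℂ, (1 - (a : ℂ) * ((Ideal.absNorm v.asIdeal : ℕ) : ℂ) ^ (-s) + u * ((Ideal.absNorm v.asIdeal : ℕ) : ℂ) ^ (-2 * s))⁻¹ =
      Complex.exp ((a : ℂ) * ((Ideal.absNorm v.asIdeal : ℕ) : ℂ) ^ (-s) + e) ∧
      ‖e‖ ≤ 10 * (Ideal.absNorm v.asIdeal : ℝ) ^ (-(2 * σ - 1)) := by
  have hN0 : 0 < Ideal.absNorm v.asIdeal := by omega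
  obtain ⟨q, hqq⟩ : ∃ q : ℝ, q = Ideal.absNorm v.asIdeal := ⟨_, rfl⟩
  have hq36 : 36 ≤ q := by rw [hqq]; exact_mod_cast hq
  have hq0 : 0 < q := by linarith
  obtain ⟨z1, hz1⟩ : ∃ z1 : ℂ, z1 = (a : ℂ) * ((Ideal.absNorm v.asIdeal : ℕ) : ℂ) ^ (-s) := ⟨_, rfl⟩
  obtain ⟨z2, hz2⟩ : ∃ z2 : ℂ, z2 = u * ((Ideal.absNorm v.asIdeal : ℕ) : ℂ) ^ (-2 * s) := ⟨_, rfl⟩
  obtain ⟨y, hy⟩ : ∃ y : ℝ, y = q ^ (1 / 2 - σ) := ⟨_, rfl⟩
  have hy0 : 0 < y := by rw [hy]; positivity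
  have hyy : y * y = q ^ (-(2 * σ - 1)) := by
    rw [hy, ← Real.rpow_add hq0]
    congr 1
    ring
  have hy6 : y ≤ 1 / 6 := by
    rw [hy]
    calc q ^ (1 / 2 - σ) ≤ q ^ (-(1 / 2) : ℝ) := Real.rpow_le_rpow_of_exponent_le (by linarith) (by linarith)
      _ ≤ 36 ^ (-(1 / 2) : ℝ) := Real.rpow_le_rpow_of_nonpos (by norm_num) hq36 (by norm_num)
      _ = 1 / 6 := by
          rw [Real.rpow_neg (by norm_num), ← Real.sqrt_eq_rpow, show (36 : ℝ) = 6 ^ 2 by norm_num, Real.sqrt_sq (by norm_num)]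
          norm_num
  have hn : ‖((Ideal.absNorm v.asIdeal : ℕ) : ℂ) ^ (-s)‖ ≤ q ^ (-σ) := by
    rw [hqq]
    exact norm_cpow_le v hs
  have h1 : ‖z1‖ ≤ 2 * y := by
    have h0 := sqrt_mul_rpow v σ
    rw [hz1, norm_mul, Complex.norm_real, hy, hqq, ← h0, ← mul_assoc]
    rw [hqq] at hn
    exact mul_le_mul ha hn (norm_nonneg _) (by positivity)
  have hsq : ((Ideal.absNorm v.asIdeal : ℕ) : ℂ) ^ (-2 * s) = (((Ideal.absNorm v.asIdeal : ℕ) : ℂ) ^ (-s)) ^ 2 := by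
    rw [← Complex.cpow_nat_mul]
    congr 1
    push_cast
    ring
  have h2 : ‖z2‖ ≤ y * y := by
    rw [hz2, hsq, norm_mul, norm_pow, hyy]
    have hu1 : ‖u‖ ≤ q := by
      rcases hu with rfl | rfl
      · rw [norm_zero]
        exact hq0.le
      · rw [Complex.norm_natCast, hqq]
    calc ‖u‖ * ‖((Ideal.absNorm v.asIdeal : ℕ) : ℂ) ^ (-s)‖ ^ 2 ≤ q * (q ^ (-σ)) ^ 2 := by gcongr
      _ = q ^ (-(2 * σ - 1)) := by
          rw [← Real.rpow_natCast, ← Real.rpow_mul hq0.le]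
          nth_rewrite 1 [← Real.rpow_one q]
          rw [← Real.rpow_add hq0]
          congr 1
          push_cast
          ring
  have h3 : ‖-(z1 - z2)‖ ≤ 3 * y := by
    rw [norm_neg]
    refine (norm_sub_le _ _).trans ?_
    nlinarith
  have h4 : ‖-(z1 - z2)‖ ≤ 1 / 2 := by linarith
  have h5 := Complex.norm_log_one_add_sub_self_le (z := -(z1 - z2)) (by linarith)
  have h6 : ‖Complex.log (1 + -(z1 - z2)) - -(z1 - z2)‖ ≤ 9 * (y * y) := by
    refine h5.trans ?_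
    have h7 : (1 - ‖-(z1 - z2)‖)⁻¹ ≤ 2 := by
      rw [inv_le_comm₀ (by linarith) (by norm_num)]
      linarith
    have h8 : ‖-(z1 - z2)‖ ^ 2 ≤ 9 * (y * y) := by
      calc ‖-(z1 - z2)‖ ^ 2 ≤ (3 * y) ^ 2 := pow_le_pow_left₀ (norm_nonneg _) h3 2
        _ = 9 * (y * y) := by ring
    have h9 : 0 ≤ (1 - ‖-(z1 - z2)‖)⁻¹ := by
      apply inv_nonneg.2
      linarith
    calc ‖-(z1 - z2)‖ ^ 2 * (1 - ‖-(z1 - z2)‖)⁻¹ / 2 ≤ 9 * (y * y) * 2 / 2 := by gcongr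
      _ = 9 * (y * y) := by ring
  have hne : 1 + -(z1 - z2) ≠ 0 := by
    intro h
    have : ‖-(z1 - z2)‖ = 1 := by
      have h10 : -(z1 - z2) = -1 := by linear_combination h
      rw [h10, norm_neg, norm_one]
    linarith
  refine ⟨-(Complex.log (1 + -(z1 - z2)) - -(z1 - z2)) - z2, ?_, ?_⟩
  · rw [← hz1, ← hz2]
    have h10 : z1 + (-(Complex.log (1 + -(z1 - z2)) - -(z1 - z2)) - z2) = -Complex.log (1 + -(z1 - z2)) := by ring
    rw [h10, Complex.exp_neg, Complex.exp_log hne]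
    congr 1
    ring
  · refine (norm_sub_le _ _).trans ?_
    rw [norm_neg, ← hqq, ← hyy]
    linarith

/-! ### Minimal models -/

/-- The integral model. -/
def mdlC (C : 𝓞 K × 𝓞 K × 𝓞 K) : WeierstrassCurve (𝓞 K) := { a₁ := 0, a₂ := C.1, a₃ := 0, a₄ := C.2.1, a₆ := C.2.2 }

omit [NumberField K] in
theorem mdlC_Δ (C : 𝓞 K × 𝓞 K × 𝓞 K) : (mdlC C).Δ = 2 ^ 4 * disc C := by
  unfold mdlC disc
  simp only [WeierstrassCurve.Δ, WeierstrassCurve.b₂, WeierstrassCurve.b₄, WeierstrassCurve.b₆, WeierstrassCurve.b₈]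
  ring

omit [NumberField K] in
theorem isModel_mdlC (C : 𝓞 K × 𝓞 K × 𝓞 K) : IsModel (curve C) (mdlC C) := by
  refine ⟨1, ?_⟩
  rw [one_smul]
  ext <;> simp [curve, mdlC, WeierstrassCurve.map]

/-- The number of the points in a residue field of characteristic prime to six. -/
theorem aff_bound {v : HeightOneSpectrum (𝓞 K)} (h6 : (6 : 𝓞 K) ∉ v.asIdeal) (V : WeierstrassCurve (𝓞 K)) :
    |(Ideal.absNorm v.asIdeal : ℝ) - aff (Pool.Agent.H341R2.EC.red v V)| ≤ 2 * √(Ideal.absNorm v.asIdeal) := by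
  classical
  have hmax : v.asIdeal.IsMaximal := v.isPrime.isMaximal v.ne_bot
  let _ : Field (𝓞 K ⧸ v.asIdeal) := Ideal.Quotient.field v.asIdeal
  have hfin : Finite (𝓞 K ⧸ v.asIdeal) := Nat.finite_of_card_ne_zero (nm_pos v).ne'
  let _ : Fintype (𝓞 K ⧸ v.asIdeal) := Fintype.ofFinite _
  have hcard : Fintype.card (𝓞 K ⧸ v.asIdeal) = Ideal.absNorm v.asIdeal := by
    rw [← Nat.card_eq_fintype_card]
    rfl
  have h6' : (6 : 𝓞 K ⧸ v.asIdeal) ≠ 0 := by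
    have := mk_ne h6
    rwa [map_ofNat] at this
  have hk : ringChar (𝓞 K ⧸ v.asIdeal) ≠ 2 := by
    intro h
    apply h6'
    have h2 := ringChar.Nat.cast_ringChar (R := 𝓞 K ⧸ v.asIdeal)
    rw [h] at h2
    have : (6 : 𝓞 K ⧸ v.asIdeal) = 3 * ((2 : ℕ) : 𝓞 K ⧸ v.asIdeal) := by norm_num
    rw [this, h2, mul_zero]
  have h1 := aff_eq_short (k := 𝓞 K ⧸ v.asIdeal) h6' (Pool.Agent.H341R2.EC.red v V)
  have h2 := short_eq (k := 𝓞 K ⧸ v.asIdeal) h6' (Pool.Agent.H341R2.EC.red v V).c₄ (Pool.Agent.H341R2.EC.red v V).c₆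
  obtain ⟨c, hc⟩ : ∃ c : (𝓞 K ⧸ v.asIdeal) × (𝓞 K ⧸ v.asIdeal) × (𝓞 K ⧸ v.asIdeal), c = (0, -27 * (Pool.Agent.H341R2.EC.red v V).c₄,
    -54 * (Pool.Agent.H341R2.EC.red v V).c₆) := ⟨_, rfl⟩
  have h3 : ((∑ x : 𝓞 K ⧸ v.asIdeal, quadraticChar (𝓞 K ⧸ v.asIdeal) ((Pool.Agent.H341R2.EC.cub (Pool.Agent.H341R2.EC.red v V).c₄
      (Pool.Agent.H341R2.EC.red v V).c₆).eval x) : ℤ) : ℝ) = Q282.BP.SS c := by
    unfold Q282.BP.SS Q282.BP.ch
    push_cast
    refine sum_congr rfl fun x _ => ?_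
    rw [Pool.Agent.H341R2.EC.cub_eval, hc]
    unfold Q282.BP.cub
    congr 3
    ring
  have h4 : (aff (Pool.Agent.H341R2.EC.red v V) : ℝ) = (Ideal.absNorm v.asIdeal : ℝ) + Q282.BP.SS c := by
    rw [← h3, ← hcard, h1]
    exact_mod_cast h2
  rw [h4, sub_add_cancel_left, abs_neg, ← hcard]
  exact hasse hk c

/-- The good primes. -/
theorem aff_good {C : 𝓞 K × 𝓞 K × 𝓞 K} {v : HeightOneSpectrum (𝓞 K)} (hC : Good C v) (h6 : (6 : 𝓞 K) ∉ v.asIdeal)
    {V : WeierstrassCurve (𝓞 K)} (hV : IsMinAt (curve C) v V) :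
    (Ideal.absNorm v.asIdeal : ℝ) - aff (Pool.Agent.H341R2.EC.red v V) = av v C := by
  have hm : (mdlC C).Δ ∉ v.asIdeal := by
    rw [mdlC_Δ]
    intro h
    have h2 : (2 : 𝓞 K) ∉ v.asIdeal := fun h2 => hC (Ideal.mul_mem_right _ _ h2)
    rcases v.isPrime.mem_or_mem h with h3 | h3
    · exact h2 (v.isPrime.mem_of_pow_mem _ h3)
    · exact hC (Ideal.mul_mem_left _ _ h3)
  have hVΔ := minimal_good hV (isModel_mdlC C) hm
  rw [aff_model hV.1 (isModel_mdlC C) hVΔ hm h6]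
  unfold av
  rw [if_pos hC]
  congr 2
  unfold aff points Pool.Agent.H341R2.EC.red mdlC
  refine Nat.card_congr (Equiv.subtypeEquivRight fun P => ?_)
  simp [WeierstrassCurve.map]

/-- **The Euler products of the true `L`-series**, with all their factors, are stable for almost all parameters. -/
theorem stable {m : ℕ} {crv : (Fin m → 𝓞 K) → 𝓞 K × 𝓞 K × 𝓞 K} {A C C' : ℝ} {p0 p1 : ℕ}
    (L : Loc K m (fun v t => av v (crv t)) A C p0) (L' : Rare K m (fun v t => ¬ Good (crv t) v) C' p1)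
    {d : ℕ} (b : Fin d → 𝓞 K) (hb : ∀ x : 𝓞 K, ∃ a : Fin d → ℤ, x = ∑ j, (a j : 𝓞 K) * b j)
    {σ : ℝ} (hσ : 1 < σ) {R δ : ℝ} (hR : 0 ≤ R) (hδ : 0 < δ) :
    ∃ y0 : ℕ, 1 ≤ y0 ∧ ∀ H : ℕ, ∃ M : (Fin m × Fin d → ℤ) → ℝ, (∀ c, 0 ≤ M c) ∧ EB H M ≤ δ ∧
      ∀ c, M c < 1 → ∀ W : HeightOneSpectrum (𝓞 K) → WeierstrassCurve (𝓞 K),
        (∀ v, IsMinAt (curve (crv (combine b (fun i j => c (i, j))))) v (W v)) →
        ∀ s : ℂ, σ ≤ s.re → ‖s‖ ≤ R → ∀ X Y : ℕ, y0 ≤ X → X ≤ Y → Y ^ 7 ≤ H →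
        ∃ E : ℂ, ∏ v ∈ Wd K X Y, Pool.Agent.W350.EdgeEC.lf W v s = Complex.exp E ∧ ‖E‖ ≤ δ := by
  classical
  obtain ⟨y1, hy1, h1⟩ := core1 L b hb hσ hR (δ := δ / 6) (by positivity)
  obtain ⟨y2, h2⟩ := core2 L' b hb hσ (δ := δ / 6) (by positivity)
  obtain ⟨N2, hN2⟩ := tail_V (K := K) ((nm_summable (K := K) (x := 2 * σ - 1) (by linarith)).mul_left 10) (δ := δ / 6) (by positivity)
  obtain ⟨T, hT⟩ : ∃ T : ℕ, T = 3 ^ Module.finrank ℚ K := ⟨_, rfl⟩
  refine ⟨y1 + y2 + N2 + 36 + T, by omega, fun H => ?_⟩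
  obtain ⟨M1, hM1, hM1', hM1''⟩ := h1 H
  obtain ⟨M2, hM2, hM2', hM2''⟩ := h2 H
  refine ⟨fun c => M1 c + M2 c, fun c => add_nonneg (hM1 c) (hM2 c), ?_, fun c hc W hW s hs hsR X Y hX hXY hY => ?_⟩
  · have e : EB H (fun c => M1 c + M2 c) = EB H M1 + EB H M2 := by
      unfold EB
      rw [sum_add_distrib, add_div]
    rw [e]
    linarith
  · have hc1 : M1 c < 1 := by have := hM2 c; linarith
    have hc2 : M2 c < 1 := by have := hM1 c; linarith
    have k1 := hM1'' c hc1 s hs hsR X Y (by omega) hXY hY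
    have k2 := hM2'' c hc2 X Y (by omega) hXY hY
    obtain ⟨t, ht⟩ : ∃ t, t = combine b (fun i j => c (i, j)) := ⟨_, rfl⟩
    rw [← ht] at k1 k2 hW
    obtain ⟨a, ha⟩ : ∃ a : HeightOneSpectrum (𝓞 K) → ℝ, a = fun v => (Ideal.absNorm v.asIdeal : ℝ) -
      aff (Pool.Agent.H341R2.EC.red v (W v)) := ⟨_, rfl⟩
    have h6 : ∀ v ∈ Wd K X Y, (6 : 𝓞 K) ∉ v.asIdeal := by
      intro v hv h6
      have hv1 := (mem_Wd.1 hv).1
      have h7 : (((6 : ℕ) : ℤ) : 𝓞 K) ∈ v.asIdeal := by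
        rw [Int.cast_natCast]
        exact_mod_cast h6
      rw [Pool.Agent.H921R2.TatePole.int_mem_iff] at h7
      have h8 : (below v : ℕ) ∣ 6 := by exact_mod_cast h7
      have h9 : (below v : ℕ) ≤ 3 := by
        have h10 : (below v : ℕ) ∣ 2 * 3 := h8
        rcases (below v).prop.dvd_mul.1 h10 with h11 | h11
        · exact (Nat.le_of_dvd (by norm_num) h11).trans (by norm_num)
        · exact Nat.le_of_dvd (by norm_num) h11
      have h12 : Ideal.absNorm v.asIdeal ≤ 3 ^ Module.finrank ℚ K := by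
        rw [norm_eq]
        calc (below v : ℕ) ^ deg v ≤ 3 ^ deg v := Nat.pow_le_pow_left h9 _
          _ ≤ 3 ^ Module.finrank ℚ K := Nat.pow_le_pow_right (by norm_num) (deg_le v)
      rw [← hT] at h12
      omega
    have hex : ∀ v : HeightOneSpectrum (𝓞 K), ∃ e : ℂ, v ∈ Wd K X Y →
        Pool.Agent.W350.EdgeEC.lf W v s = Complex.exp ((a v : ℂ) * ((Ideal.absNorm v.asIdeal : ℕ) : ℂ) ^ (-s) + e) ∧
        ‖e‖ ≤ 10 * (Ideal.absNorm v.asIdeal : ℝ) ^ (-(2 * σ - 1)) := by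
      intro v
      by_cases hv : v ∈ Wd K X Y
      · have hv1 := mem_Wd.1 hv
        have hav : |a v| ≤ 2 * √(Ideal.absNorm v.asIdeal) := by
          rw [ha]
          exact aff_bound (h6 v hv) (W v)
        obtain ⟨e, he⟩ := fac_exp hσ (v := v) (by omega) hav
          (u := if (W v).Δ ∈ v.asIdeal then 0 else ((Ideal.absNorm v.asIdeal : ℕ) : ℂ)) (by
            split_ifs
            · exact Or.inl rfl
            · exact Or.inr rfl) hs
        refine ⟨e, fun _ => ⟨?_, he.2⟩⟩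
        rw [← he.1]
        unfold Pool.Agent.W350.EdgeEC.lf Pool.Agent.H341R2.EC.trc Pool.Agent.H921R2.TatePole.nm
        rw [ha]
        push_cast
        rfl
      · exact ⟨0, fun h => absurd h hv⟩
    choose e he using hex
    refine ⟨∑ v ∈ Wd K X Y, ((a v : ℂ) * ((Ideal.absNorm v.asIdeal : ℕ) : ℂ) ^ (-s) + e v), ?_, ?_⟩
    · rw [Complex.exp_sum]
      exact prod_congr rfl fun v hv => (he v hv).1
    · rw [sum_add_distrib]
      have hE : ‖∑ v ∈ Wd K X Y, e v‖ ≤ δ / 6 := by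
        refine (norm_sum_le _ _).trans ((sum_le_sum fun v hv => (he v hv).2).trans ?_)
        exact hN2 X Y (by omega)
      have hsplit : ∑ v ∈ Wd K X Y, (a v : ℂ) * ((Ideal.absNorm v.asIdeal : ℕ) : ℂ) ^ (-s) =
          ∑ v ∈ Wd K X Y, (av v (crv t) : ℂ) * ((Ideal.absNorm v.asIdeal : ℕ) : ℂ) ^ (-s) +
          ∑ v ∈ Wd K X Y, (if ¬ Good (crv t) v then (a v : ℂ) * ((Ideal.absNorm v.asIdeal : ℕ) : ℂ) ^ (-s) else 0) := by
        rw [← sum_add_distrib]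
        refine sum_congr rfl fun v hv => ?_
        by_cases hg : Good (crv t) v
        · rw [if_neg (not_not.2 hg), add_zero, ← aff_good hg (h6 v hv) (hW v), ha]
        · rw [if_pos hg]
          unfold av
          rw [if_neg hg]
          simp
      have hbad : ‖∑ v ∈ Wd K X Y, (if ¬ Good (crv t) v then (a v : ℂ) * ((Ideal.absNorm v.asIdeal : ℕ) : ℂ) ^ (-s) else 0)‖ ≤
          2 * (δ / 6) := by
        refine (norm_sum_le _ _).trans (le_trans (sum_le_sum (g := fun v => 2 * (if ¬ Good (crv t) v then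
          (Ideal.absNorm v.asIdeal : ℝ) ^ (1 / 2 - σ) else 0)) fun v hv => ?_) ?_)
        · by_cases hg : Good (crv t) v
          · rw [if_neg (not_not.2 hg), if_neg (not_not.2 hg)]
            simp
          · rw [if_pos hg, if_pos hg, norm_mul, Complex.norm_real, ← sqrt_mul_rpow v σ, ← mul_assoc]
            refine mul_le_mul ?_ (norm_cpow_le v hs) (norm_nonneg _) (by positivity)
            rw [ha]
            exact aff_bound (h6 v hv) (W v)
        · rw [← mul_sum]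
          refine mul_le_mul_of_nonneg_left ?_ (by norm_num)
          refine le_trans (le_of_eq (sum_congr rfl fun v _ => ?_)) k2
          by_cases hg : Good (crv t) v
          · rw [if_neg (not_not.2 hg), if_neg (not_not.2 hg)]
          · rw [if_pos hg, if_pos hg]
      rw [hsplit]
      have h3 := norm_add_le (∑ v ∈ Wd K X Y, (av v (crv t) : ℂ) * ((Ideal.absNorm v.asIdeal : ℕ) : ℂ) ^ (-s))
        (∑ v ∈ Wd K X Y, (if ¬ Good (crv t) v then (a v : ℂ) * ((Ideal.absNorm v.asIdeal : ℕ) : ℂ) ^ (-s) else 0))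
      refine (norm_add_le _ _).trans ?_
      linarith

end Pool.Agent.V5helper57.Zet
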