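import Pool.Agent.V5helper57.Zet.Ell

/-!
# The families of curves with marked points
-/

set_option autoImplicit false

namespace Pool.Agent.V5helper57.Zet

open Finset NumberField IsDedekindDomain Q282.NF Pool.Agent.Y722.HS
open Pool.Agent.H921R2.TatePole (below deg nm nm_eq nm_summable)

/-- The mean value over a finite field. -/
theorem locA_mean (r : ℕ) (hr : r ≤ 2) (F : Type) [Field F] [Fintype F] [DecidableEq F] (hF : ringChar F ≠ 2)
    (h27 : (27 : F) ≠ 0) : |∑ t : Fin (r + 3) → F, locA (Q282.BP.fam r t)| ≤ 62 * Fintype.card (Fin (r + 3) → F) := by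
  classical
  obtain ⟨hb, hm1, _⟩ := Q282.BP.loc_fam hF (Or.inl h27) r hr
  obtain ⟨q, hq⟩ : ∃ q : ℝ, q = Fintype.card F := ⟨_, rfl⟩
  obtain ⟨N, hN⟩ : ∃ N : ℝ, N = Fintype.card (Fin (r + 3) → F) := ⟨_, rfl⟩
  have hN0 : 0 < N := by rw [hN]; exact_mod_cast Fintype.card_pos
  have h3 : 3 ≤ q := by rw [hq]; exact_mod_cast three_le_card hF
  have hq0 : 0 < q := by linarith
  rw [← hq, ← hN] at hb hm1
  rw [← hN]
  have hs0 : 0 < √q := Real.sqrt_pos.2 hq0
  have hsq : √q ≤ q := by
    rw [Real.sqrt_le_left hq0.le]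
    nlinarith
  have hr2 : (r : ℝ) ≤ 2 := by exact_mod_cast hr
  have hterm : ∀ t : Fin (r + 3) → F, |locA (Q282.BP.fam r t) + Q282.BP.SS (Q282.BP.fam r t)| ≤
      if Q282.BP.dis (Q282.BP.fam r t) = 0 then 2 * √q else 0 := by
    intro t
    unfold locA
    split_ifs
    · rw [zero_add, hq]
      exact hasse hF _
    · rw [neg_add_cancel, abs_zero]
  have h4 : |∑ t : Fin (r + 3) → F, locA (Q282.BP.fam r t) + ∑ t : Fin (r + 3) → F, Q282.BP.SS (Q282.BP.fam r t)| ≤ 40 * N := by
    rw [← sum_add_distrib]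
    refine (abs_sum_le_sum_abs _ _).trans ((sum_le_sum fun t _ => hterm t).trans ?_)
    rw [← sum_filter, sum_const, nsmul_eq_mul]
    have h5 : ((univ.filter fun t : Fin (r + 3) → F => Q282.BP.dis (Q282.BP.fam r t) = 0).card : ℝ) * √q ≤
        ((univ.filter fun t : Fin (r + 3) → F => Q282.BP.dis (Q282.BP.fam r t) = 0).card : ℝ) * q :=
      mul_le_mul_of_nonneg_left hsq (by positivity)
    linarith
  have h5 : |∑ t : Fin (r + 3) → F, Q282.BP.SS (Q282.BP.fam r t)| ≤ 22 * N := by
    have h6 : |∑ t : Fin (r + 3) → F, Q282.BP.SS (Q282.BP.fam r t) - r * N| ≤ 20 * N := by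
      refine le_trans ?_ hm1
      calc |∑ t : Fin (r + 3) → F, Q282.BP.SS (Q282.BP.fam r t) - r * N| =
            |∑ t : Fin (r + 3) → F, Q282.BP.SS (Q282.BP.fam r t) - r * N| * 1 := (mul_one _).symm
        _ ≤ _ := mul_le_mul_of_nonneg_left (by linarith) (abs_nonneg _)
    have h7 : (r : ℝ) * N ≤ 2 * N := mul_le_mul_of_nonneg_right hr2 hN0.le
    have h8 : 0 ≤ (r : ℝ) * N := by positivity
    rw [abs_le] at h6 ⊢
    constructor <;> linarith [h6.1, h6.2]
  rw [abs_le] at h4 h5 ⊢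
  constructor <;> linarith [h4.1, h4.2, h5.1, h5.2]

variable {K : Type} [Field K] [NumberField K]

theorem loc_family (r : ℕ) (hr : r ≤ 2) :
    Loc K (r + 3) (fun v t => av v (family r t)) 2 62 5 := by
  classical
  refine loc_of (by norm_num) ?_
  intro v F _ _ _ π hπ hker hF
  refine ⟨Q282.BP.fam r, fun t => ?_, fun h5 => ?_⟩
  · rw [family_eq, mapC_fam]
  · refine locA_mean r hr F hF ?_
    intro h
    apply (Pool.Agent.V5helper57.NFld.not_mem_of (v := v) h5).2
    rw [← hker, map_ofNat]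
    exact h

theorem rare_family (r : ℕ) (hr : r ≤ 2) : Rare K (r + 3) (fun v t => ¬ Good (family r t) v) 20 5 := by
  classical
  refine ⟨by norm_num, fun v h5 => ?_⟩
  obtain ⟨h2, h27⟩ := Pool.Agent.V5helper57.NFld.not_mem_of (v := v) h5
  obtain ⟨F, _, _, _, π, hπ, hker, hch, hcard, h3⟩ := av_ker v
  obtain ⟨hF, -⟩ := h3 h2
  refine ⟨F, inferInstance, inferInstance, π, fun x => if Q282.BP.dis (Q282.BP.fam r x) = 0 then 1 else 0, hπ, hch, fun x => ?_,
    fun t ht => ?_, ?_⟩
  · simp only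
    split_ifs <;> norm_num
  · simp only
    rw [if_pos]
    unfold Good at ht
    rw [not_not] at ht
    have h4 : disc (family r t) ∈ v.asIdeal := by
      rcases v.isPrime.mem_or_mem ht with h | h
      · exact absurd h h2
      · exact h
    have h5 : π (disc (family r t)) = 0 := (hker _).2 h4
    rw [← mapC_fam, ← family_eq, mapC_dis]
    exact h5
  · have h27F : (27 : F) ≠ 0 := by
      intro h
      apply h27
      rw [← hker, map_ofNat]
      exact h
    obtain ⟨hb, -, -⟩ := Q282.BP.loc_fam hF (Or.inl h27F) r hr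
    have hN0 : (0 : ℝ) < Fintype.card (Fin (r + 3) → F) := by exact_mod_cast Fintype.card_pos
    have hq0 : (0 : ℝ) < Ideal.absNorm v.asIdeal := by
      rw [← hcard]
      exact_mod_cast Fintype.card_pos
    rw [div_le_div_iff₀ hN0 hq0, ← hcard, ← sum_filter, sum_const, nsmul_eq_mul, mul_one]
    exact hb

end Pool.Agent.V5helper57.Zet
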