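import Pool.Agent.V5helper57.Zet.Maxi
import Pool.Agent.V5helper57.NGen.Mod
import Pool.Agent.W350.EdgeNF

/-!
# Weighted local data over a number field
-/

set_option autoImplicit false

namespace Pool.Agent.V5helper57.Zet

open Finset NumberField IsDedekindDomain Q282.NF Pool.Agent.Y722.HS
open Pool.Agent.H921R2.TatePole (below deg nm nm_eq)
open Pool.Agent.X280.BP (EM_sub' EM_const' EM_mul' EM_abs_le SS)
open Pool.Agent.V5helper57.NFld (EM_surj par par_int par_surj prm prm_coe Fb EM_sum2 fiber_bd)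
open Pool.Agent.V5helper57.NGen (XX hT muT ZT muT_eq)
open Pool.Agent.V5helper57.Gen (BB BB_nonneg)

/-- Local data on the integral parameters: of size `√N`, periodic, with a bounded mean value. -/
structure Loc (K : Type) [Field K] [NumberField K] (m : ℕ) (a : HeightOneSpectrum (𝓞 K) → (Fin m → 𝓞 K) → ℝ)
    (A C : ℝ) (p0 : ℕ) : Prop where
  A0 : 0 ≤ A
  C0 : 0 ≤ C
  bd : ∀ v t, |a v t| ≤ A * √(Ideal.absNorm v.asIdeal)
  loc : ∀ v, ∃ (F : Type) (_ : Field F) (_ : Fintype F) (π : 𝓞 K →+* F) (G : (Fin m → F) → ℝ),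
    Function.Surjective π ∧ CharP F (below v : ℕ) ∧ (∀ t, a v t = G (fun i => π (t i))) ∧
    (p0 ≤ (below v : ℕ) → |(∑ x, G x) / Fintype.card (Fin m → F)| ≤ C)

variable {K : Type} [Field K] [NumberField K] {m : ℕ} {a : HeightOneSpectrum (𝓞 K) → (Fin m → 𝓞 K) → ℝ} {A C : ℝ} {p0 : ℕ}

/-- The local data at the primes of degree one with the weight `N ^ (-τ)`. -/
noncomputable def wt (a : HeightOneSpectrum (𝓞 K) → (Fin m → 𝓞 K) → ℝ) (τ : ℝ) (v : HeightOneSpectrum (𝓞 K))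
    (t : Fin m → 𝓞 K) : ℝ :=
  if deg v = 1 then a v t * ((below v : ℕ) : ℝ) ^ (-τ) else 0

/-- The structure of the local values. -/
theorem Loc.struct (L : Loc K m a A C p0) (τ : ℝ) {d : ℕ} (b : Fin d → 𝓞 K) {p : ℕ} (v : HeightOneSpectrum (𝓞 K))
    (hvp : (below v : ℕ) = p) :
    ∃ (F : Type) (_ : Field F) (_ : Fintype F) (π : 𝓞 K →+* F) (_ : CharP F p) (G : (Fin m → F) → ℝ),
      Function.Surjective π ∧
      (∀ c : Fin m × Fin d → ℤ, wt a τ v (combine b (fun i j => c (i, j))) =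
        (if deg v = 1 then (p : ℝ) ^ (-τ) else 0) * G (par p π b (red p c))) ∧
      (∀ u, XX (wt a τ) b p v u = (if deg v = 1 then (p : ℝ) ^ (-τ) else 0) * G (par p π b u)) ∧
      (p0 ≤ p → |(∑ x, G x) / Fintype.card (Fin m → F)| ≤ C) := by
  classical
  subst hvp
  obtain ⟨F, _, _, π, G, hπ, hch, hval, hmom⟩ := L.loc v
  have h1 : ∀ c : Fin m × Fin d → ℤ, wt a τ v (combine b (fun i j => c (i, j))) =
        (if deg v = 1 then ((below v : ℕ) : ℝ) ^ (-τ) else 0) * G (par (below v : ℕ) π b (red (below v : ℕ) c)) := by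
    intro c
    unfold wt
    rw [hval, par_int]
    split_ifs
    · rw [mul_comm]
    · rw [zero_mul]
  refine ⟨F, inferInstance, inferInstance, π, hch, G, hπ, h1, fun u => ?_, hmom⟩
  have h3 := h1 (fun ij => ((u ij).val : ℤ))
  have h4 : red (below v : ℕ) (fun ij => ((u ij).val : ℤ)) = u := by
    funext ij
    unfold Y722.HS.red
    have : NeZero (below v : ℕ) := ⟨(below v).prop.ne_zero⟩
    push_cast
    exact ZMod.natCast_zmod_val (u ij)
  rw [h4] at h3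
  exact h3

theorem Loc.red (L : Loc K m a A C p0) (τ : ℝ) {d : ℕ} (b : Fin d → 𝓞 K) {p : ℕ} (v : HeightOneSpectrum (𝓞 K))
    (hvp : (below v : ℕ) = p) (c : Fin m × Fin d → ℤ) :
    XX (wt a τ) b p v (red p c) = wt a τ v (combine b (fun i j => c (i, j))) := by
  obtain ⟨F, _, _, π, _, G, _, h1, h3, _⟩ := L.struct τ b v hvp
  rw [h3, h1]

theorem Loc.wt_le (L : Loc K m a A C p0) (τ : ℝ) (v : HeightOneSpectrum (𝓞 K)) (t : Fin m → 𝓞 K) :
    |wt a τ v t| ≤ A * ((below v : ℕ) : ℝ) ^ (1 / 2 - τ) := by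
  have hA0 := L.A0
  have hp0 : (0 : ℝ) < (below v : ℕ) := by exact_mod_cast (below v).prop.pos
  unfold wt
  split_ifs with h
  · have hN : (Ideal.absNorm v.asIdeal : ℝ) = (below v : ℕ) := by
      rw [norm_eq, h, pow_one]
    have h1 := L.bd v t
    rw [hN] at h1
    rw [abs_mul, abs_of_nonneg (Real.rpow_nonneg hp0.le _), sub_eq_add_neg, Real.rpow_add hp0, ← Real.sqrt_eq_rpow, ← mul_assoc]
    exact mul_le_mul_of_nonneg_right h1 (Real.rpow_nonneg hp0.le _)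
  · rw [abs_zero]
    positivity

theorem Loc.XX_le (L : Loc K m a A C p0) (τ : ℝ) {d : ℕ} (b : Fin d → 𝓞 K) {p : ℕ} (v : HeightOneSpectrum (𝓞 K))
    (hvp : (below v : ℕ) = p) (u : Fin m × Fin d → ZMod p) : |XX (wt a τ) b p v u| ≤ A * (p : ℝ) ^ (1 / 2 - τ) := by
  have h1 := L.wt_le τ v (combine b (fun i j => ((u (i, j)).val : ℤ)))
  rw [hvp] at h1
  exact h1

theorem Loc.XX_mean (L : Loc K m a A C p0) (τ : ℝ) {d : ℕ} (b : Fin d → 𝓞 K)
    (hb : ∀ x : 𝓞 K, ∃ a : Fin d → ℤ, x = ∑ j, (a j : 𝓞 K) * b j) {p : ℕ} [NeZero p] (v : HeightOneSpectrum (𝓞 K))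
    (hvp : (below v : ℕ) = p) (hp : p0 ≤ p) : |EM p (XX (wt a τ) b p v)| ≤ C * (p : ℝ) ^ (-τ) := by
  classical
  have hC0 := L.C0
  obtain ⟨F, _, _, π, _, G, hπ, _, h3, hm⟩ := L.struct τ b v hvp
  have hm := hm hp
  have e1 : XX (wt a τ) b p v = fun u => (if deg v = 1 then (p : ℝ) ^ (-τ) else 0) * (fun u => G (par (m := m) p π b u)) u := funext h3
  rw [e1, EM_mul', EM_surj p _ (par_surj (m := m) p π hπ b hb) G, abs_mul]
  have h4 : |(if deg v = 1 then (p : ℝ) ^ (-τ) else 0)| ≤ (p : ℝ) ^ (-τ) := by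
    split_ifs
    · rw [abs_of_nonneg (by positivity)]
    · rw [abs_zero]
      positivity
  calc _ ≤ (p : ℝ) ^ (-τ) * C := mul_le_mul h4 hm (abs_nonneg _) (by positivity)
    _ = _ := mul_comm _ _

theorem Loc.hT_le (L : Loc K m a A C p0) (τ : ℝ) {d : ℕ} (b : Fin d → 𝓞 K) {p : ℕ} (hp : p.Prime) (u : Fin m × Fin d → ZMod p) :
    |hT (wt a τ) b p u| ≤ Module.finrank ℚ K * (A * (p : ℝ) ^ (1 / 2 - τ)) := by
  have hA := L.A0
  unfold hT
  rw [dif_pos hp]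
  exact fiber_bd (prm p hp) _ (by positivity) fun v => L.XX_le τ b v.1 (by rw [v.2]; rfl) u

theorem Loc.muT_le (L : Loc K m a A C p0) (τ : ℝ) {d : ℕ} (b : Fin d → 𝓞 K) {p : ℕ} (hp : p.Prime) :
    |muT (wt a τ) b p| ≤ Module.finrank ℚ K * (A * (p : ℝ) ^ (1 / 2 - τ)) := by
  haveI : NeZero p := ⟨hp.ne_zero⟩
  rw [muT_eq]
  refine (EM_abs_le p _ (fun _ => Module.finrank ℚ K * (A * (p : ℝ) ^ (1 / 2 - τ))) (fun u => L.hT_le τ b hp u)).trans ?_
  rw [EM_const']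

theorem Loc.muT_small (L : Loc K m a A C p0) (τ : ℝ) {d : ℕ} (b : Fin d → 𝓞 K)
    (hb : ∀ x : 𝓞 K, ∃ a : Fin d → ℤ, x = ∑ j, (a j : 𝓞 K) * b j) {p : ℕ} (hp : p.Prime) (hp0 : p0 ≤ p) :
    |muT (wt a τ) b p| ≤ Module.finrank ℚ K * (C * (p : ℝ) ^ (-τ)) := by
  haveI : NeZero p := ⟨hp.ne_zero⟩
  have hC0 := L.C0
  rw [muT_eq]
  have e : hT (wt a τ) b p = fun u => ∑ v : Fb K (prm p hp), XX (wt a τ) b p v.1 u := by
    funext u
    unfold hT
    rw [dif_pos hp]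
  rw [e, EM_sum2]
  exact fiber_bd (prm p hp) _ (by positivity) fun v => L.XX_mean τ b hb v.1 (by rw [v.2]; rfl) hp0

/-- The bounds of the centred data. -/
noncomputable def bb (K : Type) [Field K] [NumberField K] (A τ : ℝ) (p : ℕ) : ℝ :=
  2 * (Module.finrank ℚ K * (A * (p : ℝ) ^ (1 / 2 - τ)))

/-- The data are centred and bounded. -/
theorem Loc.cen (L : Loc K m a A C p0) (τ : ℝ) {d : ℕ} (b : Fin d → 𝓞 K) : Cen (ZT (wt a τ) b) (bb K A τ) := by
  have hA0 := L.A0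
  refine ⟨fun p => by unfold bb; positivity, fun p hp c => ?_, fun p hp _ => ?_⟩
  · have h1 := L.muT_le τ b hp
    have h2 := L.hT_le τ b hp c
    unfold ZT bb
    refine (abs_sub _ _).trans ((add_le_add h1 h2).trans (le_of_eq ?_))
    ring
  · unfold ZT
    rw [EM_sub', EM_const', muT_eq, sub_self]

/-- The sums of the local data over the primes in `[u, v)`. -/
noncomputable def TT (a : HeightOneSpectrum (𝓞 K) → (Fin m → 𝓞 K) → ℝ) (τ : ℝ) {d : ℕ} (b : Fin d → 𝓞 K) (u v : ℕ)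
    (c : Fin m × Fin d → ℤ) : ℝ := ∑ p ∈ (Ico u v).filter Nat.Prime, hT (wt a τ) b p (red p c)

theorem TT_eq (a : HeightOneSpectrum (𝓞 K) → (Fin m → 𝓞 K) → ℝ) (τ : ℝ) {d : ℕ} (b : Fin d → 𝓞 K) (u v : ℕ)
    (c : Fin m × Fin d → ℤ) :
    TT a τ b u v c = ∑ p ∈ (Ico u v).filter Nat.Prime, muT (wt a τ) b p - SS (ZT (wt a τ) b) u v c := by
  unfold TT SS ZT
  rw [sum_sub_distrib]
  ring

theorem tail_sum {f : ℕ → ℝ} (hf : Summable f) (_h0 : ∀ n, 0 ≤ f n) {δ : ℝ} (hδ : 0 < δ) :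
    ∃ N : ℕ, ∀ s : Finset ℕ, (∀ n ∈ s, N ≤ n) → ∑ n ∈ s, f n ≤ δ := by
  classical
  obtain ⟨T, hT⟩ := hf.vanishing (Iio_mem_nhds hδ)
  refine ⟨T.sup id + 1, fun s hs => ?_⟩
  have h1 := hT s (by
    rw [Finset.disjoint_left]
    intro n hn hnT
    have h2 := hs n hn
    have h3 : id n ≤ T.sup id := Finset.le_sup hnT
    simp only [id] at h3
    omega)
  exact (Set.mem_Iio.1 h1).le

/-- **The tails are uniformly small** for almost all parameters. -/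
theorem Loc.tail (L : Loc K m a A C p0) {τ : ℝ} (hτ : 1 < τ) {d : ℕ} (b : Fin d → 𝓞 K)
    (hb : ∀ x : 𝓞 K, ∃ a : Fin d → ℤ, x = ∑ j, (a j : 𝓞 K) * b j) {δ : ℝ} (hδ : 0 < δ) :
    ∃ u0 : ℕ, 1 ≤ u0 ∧ ∀ x H : ℕ, u0 ≤ x → 2 ^ Fintype.card (Fin m × Fin d) * x ^ 6 ≤ 2 * H + 1 →
      ∃ M : (Fin m × Fin d → ℤ) → ℝ, (∀ c, 0 ≤ M c) ∧ EB H M ≤ δ ∧
        ∀ c, M c < 1 → ∀ t, u0 ≤ t → t ≤ x → |TT a τ b u0 t c| ≤ δ := by
  classical
  have hA0 := L.A0
  have hC0 := L.C0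
  obtain ⟨D, hD⟩ : ∃ D : ℝ, D = Module.finrank ℚ K := ⟨_, rfl⟩
  have hD0 : 0 ≤ D := by
    rw [hD]
    positivity
  -- the two summable sequences
  have s1 : Summable fun n : ℕ => bb K A τ n ^ 2 := by
    have h1 : Summable fun n : ℕ => (n : ℝ) ^ (1 - 2 * τ) := Real.summable_nat_rpow.2 (by linarith)
    have h2 := h1.mul_left ((2 * (D * A)) ^ 2)
    refine h2.congr fun n => ?_
    unfold bb
    rw [← hD]
    have h3 : ((n : ℝ) ^ (1 / 2 - τ)) ^ 2 = (n : ℝ) ^ (1 - 2 * τ) := by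
      rw [← Real.rpow_natCast, ← Real.rpow_mul (Nat.cast_nonneg n)]
      congr 1
      push_cast
      ring
    rw [← h3]
    ring
  have s2 : Summable fun n : ℕ => D * (C * (n : ℝ) ^ (-τ)) := by
    have h1 : Summable fun n : ℕ => (n : ℝ) ^ (-τ) := Real.summable_nat_rpow.2 (by linarith)
    exact (h1.mul_left C).mul_left D
  obtain ⟨u1, hu1⟩ := tail_sum s1 (fun n => sq_nonneg _) (δ := min 1 (δ * (δ / 2) ^ 4 / (2916 * 91))) (by positivity)
  obtain ⟨u2, hu2⟩ := tail_sum s2 (fun n => by positivity) (δ := δ / 2) (by positivity)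
  refine ⟨u1 + u2 + p0 + 1, by omega, fun x H hx hH => ?_⟩
  obtain ⟨u0, hu0⟩ : ∃ u0 : ℕ, u0 = u1 + u2 + p0 + 1 := ⟨_, rfl⟩
  rw [← hu0] at hx ⊢
  obtain ⟨M, hM1, hM2⟩ := (L.cen τ b).maxi (by omega : 1 ≤ x) hH hx le_rfl
  have hB : BB (bb K A τ) u0 x ≤ min 1 (δ * (δ / 2) ^ 4 / (2916 * 91)) := by
    unfold BB
    refine hu1 _ fun n hn => ?_
    have := (mem_Ico.1 (mem_filter.1 hn).1).1
    omega
  have hB0 := BB_nonneg (bb K A τ) u0 x
  refine ⟨fun c => M c / (δ / 2) ^ 4, fun c => ?_, ?_, fun c hc t ht htx => ?_⟩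
  · have h1 := hM2 c u0 le_rfl hx
    have h2 : 0 ≤ M c := le_trans (by positivity) h1
    positivity
  · have e : EB H (fun c => M c / (δ / 2) ^ 4) = EB H M / (δ / 2) ^ 4 := by
      unfold EB
      rw [← sum_div]
      ring
    rw [e, div_le_iff₀ (by positivity)]
    refine hM1.trans ?_
    have h3 : BB (bb K A τ) u0 x ^ 2 ≤ 1 * (δ * (δ / 2) ^ 4 / (2916 * 91)) := by
      rw [sq]
      exact mul_le_mul (hB.trans (min_le_left _ _)) (hB.trans (min_le_right _ _)) hB0 zero_le_one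
    calc 2916 * 91 * BB (bb K A τ) u0 x ^ 2 ≤ 2916 * 91 * (1 * (δ * (δ / 2) ^ 4 / (2916 * 91))) := by gcongr
      _ = δ * (δ / 2) ^ 4 := by ring
  · have h1 := hM2 c t ht htx
    rw [div_lt_one (by positivity)] at hc
    have h2 : |SS (ZT (wt a τ) b) u0 t c| ≤ δ / 2 := by
      have h3 : |SS (ZT (wt a τ) b) u0 t c| ^ 4 ≤ (δ / 2) ^ 4 := by
        have h4 : |SS (ZT (wt a τ) b) u0 t c| ^ 4 = SS (ZT (wt a τ) b) u0 t c ^ 4 := by
          rw [← abs_pow, abs_of_nonneg (by positivity)]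
        rw [h4]
        linarith
      exact le_of_pow_le_pow_left₀ (by norm_num) (by positivity) h3
    have h5 : |∑ p ∈ (Ico u0 t).filter Nat.Prime, muT (wt a τ) b p| ≤ δ / 2 := by
      refine (abs_sum_le_sum_abs _ _).trans ((sum_le_sum fun p hp => ?_).trans (hu2 ((Ico u0 t).filter Nat.Prime) fun n hn => ?_))
      · have h6 := (mem_Ico.1 (mem_filter.1 hp).1).1
        rw [hD]
        exact L.muT_small τ b hb (mem_filter.1 hp).2 (by omega)
      · have := (mem_Ico.1 (mem_filter.1 hn).1).1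
        omega
    rw [TT_eq]
    refine (abs_sub _ _).trans ?_
    linarith

end Pool.Agent.V5helper57.Zet
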