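import Pool.Agent.V5helper57.Gen.Arr

/-!
# The maximal inequality for centred bounded local data
-/

set_option autoImplicit false

namespace Pool.Agent.V5helper57.Zet

open Finset Filter Topology Pool.Agent.Y722.HS Pool.Agent.X280.BP Pool.Agent.X280.UC Pool.Agent.X280.HG
open Pool.Agent.V5helper57.Win Pool.Agent.V5helper57.Gen

variable {ι : Type} [Fintype ι] [DecidableEq ι]

/-- Centred bounded local data. -/
structure Cen (Z : ∀ p : ℕ, (ι → ZMod p) → ℝ) (b : ℕ → ℝ) : Prop where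
  b0 : ∀ p, 0 ≤ b p
  bd : ∀ p, p.Prime → ∀ c, |Z p c| ≤ b p
  mean : ∀ p, p.Prime → ∀ [NeZero p], EM p (Z p) = 0

variable {Z : ∀ p : ℕ, (ι → ZMod p) → ℝ} {b : ℕ → ℝ}

/-- **The fourth moments.** -/
theorem Cen.four (h : Cen Z b) {x H : ℕ} (hx1 : 1 ≤ x) (hH : 2 ^ Fintype.card ι * x ^ 6 ≤ 2 * H + 1) {u v : ℕ} (hv : v ≤ x) :
    EB H (fun c => SS Z u v c ^ 4) ≤ 91 * BB b u v ^ 2 := by
  classical
  obtain ⟨I, hI⟩ : ∃ I : Finset ℕ, I = (Ico u v).filter Nat.Prime := ⟨_, rfl⟩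
  have hmem : ∀ p ∈ I, p.Prime ∧ u ≤ p ∧ p < v := by
    intro p hp
    rw [hI, Finset.mem_filter, Finset.mem_Ico] at hp
    exact ⟨hp.2, hp.1.1, hp.1.2⟩
  obtain ⟨W, hW⟩ : ∃ W : ℝ, W = ∑ p ∈ I, b p ^ 2 := ⟨_, rfl⟩
  have hBW : BB b u v = W := by rw [hW, hI]; rfl
  have hW0 : 0 ≤ W := by rw [← hBW]; exact BB_nonneg _ _ _
  rw [hBW]
  have hSS : ∀ c, SS Z u v c = ∑ p ∈ I, Z p (red p c) := fun c => by rw [hI]; rfl
  rcases hW0.eq_or_lt with hW1 | hW1
  · have hb : ∀ p ∈ I, b p = 0 := by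
      intro p hp
      have h1 : b p ^ 2 ≤ 0 := by
        rw [hW1, hW]
        exact Finset.single_le_sum (f := fun p => b p ^ 2) (fun q _ => by positivity) hp
      have h2 : 0 ≤ b p ^ 2 := by positivity
      exact pow_eq_zero_iff (two_ne_zero) |>.1 (le_antisymm h1 h2)
    have h0 : ∀ c, SS Z u v c = 0 := by
      intro c
      rw [hSS]
      refine Finset.sum_eq_zero fun p hp => ?_
      have h1 := h.bd p (hmem p hp).1 (red p c)
      rw [hb p hp] at h1
      exact abs_eq_zero.1 (le_antisymm h1 (abs_nonneg _))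
    have h2 : EB H (fun c => SS Z u v c ^ 4) = 0 := by
      simp only [h0]
      simp [EB]
    rw [h2]
    positivity
  · have hx4 : x ^ 4 ≤ 2 * H + 1 := by
      calc x ^ 4 ≤ x ^ 6 := Nat.pow_le_pow_right hx1 (by norm_num)
        _ ≤ 2 ^ Fintype.card ι * x ^ 6 := Nat.le_mul_of_pos_left _ (by positivity)
        _ ≤ _ := hH
    have h1 := mom_four I x (fun p hp => ⟨(hmem p hp).1, by have := (hmem p hp).2.2; omega⟩) Z b
      (fun p hp => h.bd p (hmem p hp).1) (fun p hp => h.mean p (hmem p hp).1) W hW1 hW.symm.le H hx4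
    have hcard : (I.card : ℝ) ≤ x := by
      have hc : I.card ≤ x := by
        calc I.card ≤ (Ico u v).card := by rw [hI]; exact Finset.card_filter_le _ _
          _ = v - u := Nat.card_Ico u v
          _ ≤ x := by omega
      exact_mod_cast hc
    have h2 : (∑ p ∈ I, b p) ^ 2 ≤ x * W := by
      refine (sq_sum_le_card_mul_sum_sq (s := I) (f := b)).trans ?_
      rw [← hW]
      exact mul_le_mul_of_nonneg_right hcard hW0
    have h3 : (∑ p ∈ I, b p) ^ 4 ≤ (x * W) ^ 2 := by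
      have : (∑ p ∈ I, b p) ^ 4 = ((∑ p ∈ I, b p) ^ 2) ^ 2 := by ring
      rw [this]
      exact pow_le_pow_left₀ (by positivity) h2 2
    have hxR2 : (2 : ℝ) ^ Fintype.card ι * (x : ℝ) ^ 6 ≤ 2 * H + 1 := by exact_mod_cast hH
    have h5 : 2 ^ Fintype.card ι * ((x : ℝ) ^ 4 / (2 * H + 1)) * (∑ p ∈ I, b p) ^ 4 ≤ W ^ 2 := by
      calc 2 ^ Fintype.card ι * ((x : ℝ) ^ 4 / (2 * H + 1)) * (∑ p ∈ I, b p) ^ 4
          ≤ 2 ^ Fintype.card ι * ((x : ℝ) ^ 4 / (2 * H + 1)) * (x * W) ^ 2 := by gcongr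
        _ = W ^ 2 * ((2 ^ Fintype.card ι * (x : ℝ) ^ 6) / (2 * H + 1)) := by
            field_simp
        _ ≤ W ^ 2 * 1 := by
            gcongr
            rw [div_le_one (by positivity)]
            exact hxR2
        _ = W ^ 2 := mul_one _
    simp only [hSS]
    linarith

/-- **The maximal inequality.** -/
theorem Cen.maxi (h : Cen Z b) {x H : ℕ} (hx1 : 1 ≤ x) (hH : 2 ^ Fintype.card ι * x ^ 6 ≤ 2 * H + 1) {u v : ℕ} (huv : u ≤ v)
    (hv : v ≤ x) :
    ∃ M : (ι → ℤ) → ℝ, EB H M ≤ 2916 * 91 * BB b u v ^ 2 ∧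
      ∀ c t, u ≤ t → t ≤ v → SS Z u t c ^ 4 ≤ M c := by
  classical
  have e1 : ∀ a' b' c, ∑ i ∈ Ico a' b', (if i.Prime then Z i (red i c) else 0) = SS Z a' b' c := by
    intro a' b' c
    unfold SS
    rw [Finset.sum_filter]
  have e2 : ∀ a' b', ∑ i ∈ Ico a' b', (if i.Prime then b i ^ 2 else 0) = BB b a' b' := by
    intro a' b'
    unfold BB
    rw [Finset.sum_filter]
  obtain ⟨M, h1, h2⟩ := chain H (fun i c => if i.Prime then Z i (red i c) else 0)
    (fun i => if i.Prime then b i ^ 2 else 0) (fun i => by positivity) 91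
    (by positivity) v (fun a' b' _ hb' => by
      simp only [e1, e2]
      exact h.four hx1 hH (hb'.trans hv)) (v - u) u v huv le_rfl le_rfl
  rw [e2] at h1
  refine ⟨M, h1, fun c t hat ht => ?_⟩
  have := h2 c t hat ht
  rwa [e1] at this

end Pool.Agent.V5helper57.Zet
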