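import Pool.Agent.V5helper57.Zet.Loc
import Pool.Agent.V5helper57.Zet.Abel

/-!
# Sums over windows of primes
-/

set_option autoImplicit false

namespace Pool.Agent.V5helper57.Zet

open Finset NumberField IsDedekindDomain Q282.NF Pool.Agent.Y722.HS
open Pool.Agent.H921R2.TatePole (below deg nm nm_eq nm_summable summable_primes_rpow fiber_card_le)
open Pool.Agent.V5helper57.NFld (prm prm_coe Fb)
open Pool.Agent.V5helper57.NGen (XX hT)

variable {K : Type} [Field K] [NumberField K] {m : ℕ} {a : HeightOneSpectrum (𝓞 K) → (Fin m → 𝓞 K) → ℝ} {A C : ℝ} {p0 : ℕ}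

/-- The primes of norm in `(X, Y]`. -/
noncomputable def Wd (K : Type) [Field K] [NumberField K] (X Y : ℕ) : Finset (HeightOneSpectrum (𝓞 K)) := by
  classical
  exact (fin_le (K := K) Y).toFinset.filter fun v => X < Ideal.absNorm v.asIdeal

theorem mem_Wd {X Y : ℕ} {v : HeightOneSpectrum (𝓞 K)} :
    v ∈ Wd K X Y ↔ X < Ideal.absNorm v.asIdeal ∧ Ideal.absNorm v.asIdeal ≤ Y := by
  classical
  unfold Wd
  rw [mem_filter, Set.Finite.mem_toFinset, Set.mem_ofPred_eq, and_comm]

/-- The primes of degree one. -/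
theorem sum_one (L : Loc K m a A C p0) (τ : ℝ) {d : ℕ} (b : Fin d → 𝓞 K) (X Y : ℕ) (c : Fin m × Fin d → ℤ) (w : ℂ) :
    ∑ v ∈ Wd K X Y, (if deg v = 1 then (a v (combine b (fun i j => c (i, j))) : ℂ) *
        ((Ideal.absNorm v.asIdeal : ℕ) : ℂ) ^ (-(w + τ)) else 0) =
      ∑ i ∈ Ico (X + 1) (Y + 1), ((if i.Prime then hT (wt a τ) b i (red i c) else 0 : ℝ) : ℂ) * (i : ℂ) ^ (-w) := by
  classical
  obtain ⟨t, ht⟩ : ∃ t, t = combine b (fun i j => c (i, j)) := ⟨_, rfl⟩
  obtain ⟨f, hf⟩ : ∃ f : HeightOneSpectrum (𝓞 K) → ℂ, f = fun v => if deg v = 1 then (a v t : ℂ) *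
        ((Ideal.absNorm v.asIdeal : ℕ) : ℂ) ^ (-(w + τ)) else 0 := ⟨_, rfl⟩
  have h1 : ∀ i ∈ Ico (X + 1) (Y + 1), ((if i.Prime then hT (wt a τ) b i (red i c) else 0 : ℝ) : ℂ) * (i : ℂ) ^ (-w) =
      ∑ v ∈ Wd K X Y, if (below v : ℕ) = i then f v else 0 := by
    intro i hi
    have hi1 := mem_Ico.1 hi
    by_cases hp : i.Prime
    · rw [if_pos hp]
      have hi0 : (i : ℂ) ≠ 0 := by exact_mod_cast hp.ne_zero
      have h2 : ((hT (wt a τ) b i (red i c) : ℝ) : ℂ) * (i : ℂ) ^ (-w) = ∑ v : Fb K (prm i hp), f v.1 := by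
        unfold hT
        rw [dif_pos hp]
        push_cast
        rw [sum_mul]
        refine sum_congr rfl fun v _ => ?_
        have hvp : (below v.1 : ℕ) = i := by rw [v.2]; rfl
        rw [L.red τ b v.1 hvp c, ← ht, hf]
        unfold wt
        simp only
        split_ifs with h
        · have hN : Ideal.absNorm v.1.asIdeal = i := by
            rw [norm_eq, hvp, h, pow_one]
          rw [hN, hvp, neg_add, Complex.cpow_add _ _ hi0]
          push_cast
          rw [Complex.ofReal_cpow (Nat.cast_nonneg i)]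
          push_cast
          ring
        · push_cast
          ring
      rw [h2, ← sum_filter]
      rw [← sum_filter_add_sum_filter_not (s := (univ : Finset (Fb K (prm i hp)))) (p := fun v => deg v.1 = 1)]
      have h3 : ∑ v ∈ (univ : Finset (Fb K (prm i hp))).filter (fun v => ¬ deg v.1 = 1), f v.1 = 0 := by
        refine sum_eq_zero fun v hv => ?_
        rw [hf]
        exact if_neg (mem_filter.1 hv).2
      rw [h3, add_zero]
      rw [← sum_filter_add_sum_filter_not (s := (Wd K X Y).filter (fun v => (below v : ℕ) = i)) (p := fun v => deg v = 1)]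
      have h4 : ∑ v ∈ ((Wd K X Y).filter (fun v => (below v : ℕ) = i)).filter (fun v => ¬ deg v = 1), f v = 0 := by
        refine sum_eq_zero fun v hv => ?_
        rw [hf]
        exact if_neg (mem_filter.1 hv).2
      rw [h4, add_zero]
      refine sum_bij (fun v _ => v.1) ?_ ?_ ?_ ?_
      · rintro ⟨v, hv⟩ h
        rw [mem_filter] at h ⊢
        have h5 : deg v = 1 := h.2
        have h6 : (below v : ℕ) = i := by rw [hv]; rfl
        refine ⟨?_, h5⟩
        have h7 : Ideal.absNorm v.asIdeal = i := by rw [norm_eq, h5, h6, pow_one]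
        have h8 : v ∈ Wd K X Y := mem_Wd.2 ⟨by omega, by omega⟩
        exact mem_filter.2 ⟨h8, h6⟩
      · rintro ⟨v, _⟩ _ ⟨w, _⟩ _ h
        exact Subtype.ext h
      · intro v hv
        rw [mem_filter, mem_filter] at hv
        refine ⟨⟨v, Subtype.ext hv.1.2⟩, ?_, rfl⟩
        rw [mem_filter]
        exact ⟨mem_univ _, hv.2⟩
      · intro v _
        rfl
    · rw [if_neg hp, Complex.ofReal_zero, zero_mul]
      symm
      refine sum_eq_zero fun v _ => ?_
      rw [if_neg]
      rintro rfl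
      exact hp (below v).prop
  rw [← ht, sum_congr rfl h1, sum_comm]
  refine sum_congr rfl fun v hv => ?_
  have hv1 := mem_Wd.1 hv
  by_cases h : deg v = 1
  · have hN : Ideal.absNorm v.asIdeal = (below v : ℕ) := by
      rw [norm_eq, h, pow_one]
    have hm : (below v : ℕ) ∈ Ico (X + 1) (Y + 1) := by
      rw [mem_Ico]
      omega
    rw [sum_eq_single_of_mem (below v : ℕ) hm, if_pos rfl, hf]
    intro i _ hi
    rw [if_neg (Ne.symm hi)]
  · rw [if_neg h]
    symm
    refine sum_eq_zero fun i _ => ?_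
    split_ifs
    · rw [hf]
      exact if_neg h
    · rfl

/-- The powers of the residue characteristics. -/
theorem below_summable {x : ℝ} (hx : 1 < x) : Summable fun v : HeightOneSpectrum (𝓞 K) => ((below v : ℕ) : ℝ) ^ (-x) := by
  rw [← (Equiv.sigmaFiberEquiv (below (K := K))).summable_iff]
  rw [summable_sigma_of_nonneg (fun _ => by simp only [Function.comp_apply]; positivity)]
  constructor
  · intro p
    exact Summable.of_finite
  · have h1 : Summable fun p : Nat.Primes => (Module.finrank ℚ K : ℝ) *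
        ((p : ℕ) : ℝ) ^ (-x) := (summable_primes_rpow hx).mul_left _
    refine Summable.of_nonneg_of_le (fun p => tsum_nonneg fun _ => by
      simp only [Function.comp_apply]; positivity) (fun p => ?_) h1
    rw [tsum_fintype]
    have h2 : ∀ v : {v : HeightOneSpectrum (𝓞 K) // below v = p},
        ((fun v : HeightOneSpectrum (𝓞 K) => ((below v : ℕ) : ℝ) ^ (-x)) ∘
          (Equiv.sigmaFiberEquiv (below (K := K)))) ⟨p, v⟩ = ((p : ℕ) : ℝ) ^ (-x) := by
      intro v
      simp only [Function.comp_apply, Equiv.sigmaFiberEquiv, Equiv.coe_fn_mk]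
      rw [v.2]
    rw [Finset.sum_congr rfl fun v _ => h2 v, Finset.sum_const, nsmul_eq_mul]
    refine mul_le_mul_of_nonneg_right ?_ (by positivity)
    have := fiber_card_le (K := K) p
    rw [Finset.card_univ]
    exact_mod_cast this

/-- The tails of a convergent series over the primes. -/
theorem tail_V {f : HeightOneSpectrum (𝓞 K) → ℝ} (hf : Summable f) {δ : ℝ} (hδ : 0 < δ) :
    ∃ N : ℕ, ∀ X Y : ℕ, N ≤ X → ∑ v ∈ Wd K X Y, f v ≤ δ := by
  classical
  obtain ⟨T, hT⟩ := hf.vanishing (Iio_mem_nhds hδ)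
  refine ⟨T.sup fun v => Ideal.absNorm v.asIdeal, fun X Y hX => ?_⟩
  have h1 := hT (Wd K X Y) (by
    rw [Finset.disjoint_left]
    intro v hv hvT
    have h2 := (mem_Wd.1 hv).1
    have h3 : Ideal.absNorm v.asIdeal ≤ T.sup fun v => Ideal.absNorm v.asIdeal :=
      Finset.le_sup (f := fun v : HeightOneSpectrum (𝓞 K) => Ideal.absNorm v.asIdeal) hvT
    omega)
  exact (Set.mem_Iio.1 h1).le

end Pool.Agent.V5helper57.Zet
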